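import Pool.Agent.helper19.EM.LiftS

/-!
# EM: the derivative in time of `∫ w² ds`
-/

set_option autoImplicit false

open scoped Real ContDiff ComplexConjugate InnerProductSpace Topology NNReal
open Set Pool.Agent.helper19.EL MeasureTheory

namespace Pool.Agent.helper19.EM

/-- `∫₀¹ f du` is continuous in time -/
theorem cont_int {f : ℝ → ℝ → ℝ} {a b : ℝ} (hab : a ≤ b)
    (hf : ContinuousOn (fun p : ℝ × ℝ => f p.1 p.2) (univ ×ˢ Icc a b)) :
    ContinuousOn (fun t => ∫ u in (0 : ℝ)..1, f u t) (Icc a b) := by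
  set g : ℝ → ℝ → ℝ := fun t u => f u (projIcc a b hab t) with hg
  have hgc : Continuous (Function.uncurry g) := by
    have h1 : Continuous fun p : ℝ × ℝ => ((p.2, (projIcc a b hab p.1 : ℝ)) : ℝ × ℝ) :=
      continuous_snd.prodMk (continuous_subtype_val.comp
        (continuous_projIcc.comp continuous_fst))
    exact hf.comp_continuous h1 fun p => ⟨mem_univ _, (projIcc a b hab p.1).2⟩
  have h4 : Continuous fun t => ∫ u in (0 : ℝ)..1, g t u :=
    intervalIntegral.continuous_parametric_intervalIntegral_of_continuous' hgc 0 1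
  refine h4.continuousOn.congr fun t ht => ?_
  simp only [hg, projIcc_of_mem hab ht]

/-- differentiation under the integral sign -/
theorem deriv_int {f f' : ℝ → ℝ → ℝ} {a b t : ℝ} (ht : t ∈ Ioo a b)
    (hf : ContinuousOn (fun p : ℝ × ℝ => f p.1 p.2) (univ ×ˢ Icc a b))
    (hf' : ContinuousOn (fun p : ℝ × ℝ => f' p.1 p.2) (univ ×ˢ Icc a b))
    (hd : ∀ u, ∀ t ∈ Ioo a b, HasDerivAt (f u) (f' u t) t) :
    HasDerivAt (fun t => ∫ u in (0 : ℝ)..1, f u t) (∫ u in (0 : ℝ)..1, f' u t) t := by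
  have hsub : Icc (0 : ℝ) 1 ×ˢ Icc a b ⊆ (univ : Set ℝ) ×ˢ Icc a b :=
    prod_mono (subset_univ _) subset_rfl
  obtain ⟨M, hM⟩ := (isCompact_Icc.prod isCompact_Icc).exists_bound_of_continuousOn
    (hf'.mono hsub)
  have hcu : ∀ {g : ℝ → ℝ → ℝ}, ContinuousOn (fun p : ℝ × ℝ => g p.1 p.2) (univ ×ˢ Icc a b) →
      ∀ t' ∈ Icc a b, Continuous fun u => g u t' := by
    intro g hg t' ht'
    have h1 : Continuous fun u : ℝ => ((u, t') : ℝ × ℝ) := by fun_prop
    exact hg.comp_continuous h1 fun u => ⟨mem_univ _, ht'⟩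
  have h := intervalIntegral.hasDerivAt_integral_of_dominated_loc_of_deriv_le
    (μ := volume) (F := fun t u => f u t) (F' := fun t u => f' u t) (x₀ := t)
    (s := Ioo a b) (bound := fun _ => M) (a := 0) (b := 1) (Ioo_mem_nhds ht.1 ht.2)
    ?_ ?_ ?_ ?_ ?_ ?_
  · exact h.2
  · filter_upwards [Ioo_mem_nhds ht.1 ht.2] with t' ht'
    exact (hcu hf t' (Ioo_subset_Icc_self ht')).aestronglyMeasurable
  · exact (hcu hf t (Ioo_subset_Icc_self ht)).intervalIntegrable _ _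
  · exact (hcu hf' t (Ioo_subset_Icc_self ht)).aestronglyMeasurable
  · refine Filter.Eventually.of_forall fun u hu t' ht' => ?_
    rw [uIoc_of_le zero_le_one] at hu
    exact hM (u, t') ⟨⟨hu.1.le, hu.2⟩, Ioo_subset_Icc_self ht'⟩
  · exact intervalIntegrable_const
  · exact Filter.Eventually.of_forall fun u _ t' ht' => hd u t' ht'

section

variable {γ c : ℝ → ℝ → ℂ} {T a b ρ : ℝ} {x w : ℝ → ℝ → ℝ}

/-- `∫ w² ds` -/
noncomputable def W2 (γ : ℝ → ℝ → ℂ) (w : ℝ → ℝ → ℝ) (t : ℝ) : ℝ :=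
  ∫ u in (0 : ℝ)..1, w u t ^ 2 * fv γ u t

/-- the time derivative of `∫ w² ds` -/
noncomputable def W2' (γ c : ℝ → ℝ → ℂ) (x w : ℝ → ℝ → ℝ) (t : ℝ) : ℝ :=
  ∫ u in (0 : ℝ)..1, (2 * w u t * (-(fF γ u t * CC γ c u (x u t) t) - rν c (x u t) t) +
    w u t ^ 2 * (fF γ u t * fk γ u t)) * fv γ u t

/-- functions of the foot point are continuous -/
theorem Lift.cont_foot {E : Type} [NormedAddCommGroup E] [NormedSpace ℝ E] {f : ℝ → ℝ → E}
    (L : Lift γ c a b ρ x w) (hf : ∀ t ∈ Icc a b, ∀ y, SA f y t) :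
    ContinuousOn (fun p : ℝ × ℝ => f (x p.1 p.2) p.2) (univ ×ˢ Icc a b) := by
  intro p hp
  have h1 : ContinuousWithinAt (fun p : ℝ × ℝ => ((x p.1 p.2, p.2) : ℝ × ℝ))
      (univ ×ˢ Icc a b) p := (L.cx p hp).prodMk continuous_snd.continuousWithinAt
  exact (hf p.2 hp.2 _).continuousAt.comp_continuousWithinAt
    (f := fun p : ℝ × ℝ => ((x p.1 p.2, p.2) : ℝ × ℝ)) h1

theorem Lift.cont_CC (L : Lift γ c a b ρ x w) (h : IsFlow γ T) (hc : Ref c a b)
    (hsub : Icc a b ⊆ Ico 0 T) :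
    ContinuousOn (fun p : ℝ × ℝ => CC γ c p.1 (x p.1 p.2) p.2) (univ ×ˢ Icc a b) :=
  Complex.continuous_re.comp_continuousOn
    ((h.sm_T.continuousOn.mono (prod_mono subset_rfl hsub)).mul
      (Complex.continuous_conj.comp_continuousOn (L.cont_foot fun _ ht y => hc.sa_T ht y)))

theorem Lift.cont_SS (L : Lift γ c a b ρ x w) (h : IsFlow γ T) (hc : Ref c a b)
    (hsub : Icc a b ⊆ Ico 0 T) :
    ContinuousOn (fun p : ℝ × ℝ => SS γ c p.1 (x p.1 p.2) p.2) (univ ×ˢ Icc a b) :=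
  Complex.continuous_im.comp_continuousOn
    ((h.sm_T.continuousOn.mono (prod_mono subset_rfl hsub)).mul
      (Complex.continuous_conj.comp_continuousOn (L.cont_foot fun _ ht y => hc.sa_T ht y)))

theorem Lift.cont_W2 (L : Lift γ c a b ρ x w) (h : IsFlow γ T) (hab : a ≤ b)
    (hsub : Icc a b ⊆ Ico 0 T) : ContinuousOn (W2 γ w) (Icc a b) :=
  cont_int hab ((L.cw.pow 2).mul (h.sm_v.continuousOn.mono (prod_mono subset_rfl hsub)))

/-- **The derivative of `∫ w² ds`.** -/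
theorem Lift.deriv_W2 (L : Lift γ c a b ρ x w) (h : IsFlow γ T) (hc : Ref c a b) (h0 : 0 ≤ a)
    (hbT : b < T) {t : ℝ} (ht : t ∈ Ioo a b) :
    HasDerivAt (W2 γ w) (W2' γ c x w t) t := by
  have hsub : Icc a b ⊆ Ico 0 T := fun t ht => ⟨h0.trans ht.1, ht.2.trans_lt hbT⟩
  have m := fun {f : ℝ → ℝ → ℝ} (hf : Sm T f) =>
    hf.continuousOn.mono (prod_mono (subset_refl (univ : Set ℝ)) hsub)
  refine deriv_int (f := fun u t => w u t ^ 2 * fv γ u t)
    (f' := fun u t => (2 * w u t * (-(fF γ u t * CC γ c u (x u t) t) - rν c (x u t) t) +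
      w u t ^ 2 * (fF γ u t * fk γ u t)) * fv γ u t) ht ((L.cw.pow 2).mul (m h.sm_v)) ?_ ?_
  · exact (((continuousOn_const.mul L.cw).mul
      (((m h.sm_F).mul (L.cont_CC h hc hsub)).neg.sub
        (L.cont_foot fun _ ht y => hc.sa_ν ht y))).add
      ((L.cw.pow 2).mul ((m h.sm_F).mul (m h.sm_k)))).mul (m h.sm_v)
  · intro u s hs
    have hs0 : s ∈ Ioo 0 T := ⟨h0.trans_lt hs.1, hs.2.trans hbT⟩
    have d1 := (L.dw s (Ioo_subset_Icc_self hs) u).hasDerivAt (Icc_mem_nhds hs.1 hs.2)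
    have d2 := h.sm_v.hasDerivAt_t hs0 u
    rw [h.pt_v hs0] at d2
    refine ((d1.pow 2).mul d2).congr_deriv ?_
    simp only [Pi.pow_apply]
    ring

end

end Pool.Agent.helper19.EM
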