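import Pool.Agent.helper19.EM.LiftEx

/-!
# EM: rescaling of an explicit family of period `2π`; uniform continuity of periodic functions
-/

set_option autoImplicit false

open scoped Real ContDiff ComplexConjugate InnerProductSpace Topology NNReal
open Set Pool.Agent.helper19.EL

namespace Pool.Agent.helper19.EM

/-- the family `e` (period `2π`) with a parameter of period `1` -/
noncomputable def resc (e : ℝ → ℝ → ℂ) : ℝ → ℝ → ℂ := fun x t => e (2 * π * x) t

section

variable {e : ℝ → ℝ → ℂ} {a b : ℝ}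

theorem pu_resc (x t : ℝ) :
    pu (resc e) x t = ((2 * π : ℝ) : ℂ) * deriv (sl e t) (2 * π * x) := by
  have h := deriv_comp_mul_left (2 * π) (sl e t) x
  rw [Complex.real_smul] at h
  exact h

theorem fv_resc (x t : ℝ) : fv (resc e) x t = 2 * π * speed (sl e t) (2 * π * x) := by
  show ‖pu (resc e) x t‖ = _
  rw [pu_resc, norm_mul, Complex.norm_real, Real.norm_of_nonneg (by positivity)]
  rfl

theorem fT_resc (x t : ℝ) : fT (resc e) x t = tang (sl e t) (2 * π * x) := by
  show pu (resc e) x t / (fv (resc e) x t : ℂ) = _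
  rw [pu_resc, fv_resc, Complex.ofReal_mul (2 * π)]
  rw [mul_div_mul_left _ _ (by
    rw [Ne, Complex.ofReal_eq_zero]
    positivity)]
  rfl

theorem pu_T_resc (x t : ℝ) :
    pu (fT (resc e)) x t = ((2 * π : ℝ) : ℂ) * deriv (tang (sl e t)) (2 * π * x) := by
  have h := deriv_comp_mul_left (2 * π) (tang (sl e t)) x
  rw [Complex.real_smul] at h
  rw [← h]
  show deriv (fun x => fT (resc e) x t) x = _
  congr 1
  funext y
  exact fT_resc y t

theorem fk_resc (x t : ℝ) : fk (resc e) x t = curv (sl e t) (2 * π * x) := by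
  show ⟪pu (fT (resc e)) x t / (fv (resc e) x t : ℂ), Complex.I * fT (resc e) x t⟫_ℝ = _
  rw [pu_T_resc, fv_resc, fT_resc, Complex.ofReal_mul (2 * π)]
  rw [mul_div_mul_left _ _ (by
    rw [Ne, Complex.ofReal_eq_zero]
    positivity)]
  rfl

theorem dsR_resc {f g : ℝ → ℝ} {t : ℝ} (hg : ∀ x, g x = f (2 * π * x)) (x : ℝ) :
    deriv g x / fv (resc e) x t = dsR (sl e t) f (2 * π * x) := by
  have h : deriv (fun x => f (2 * π * x)) x = (2 * π) • deriv f (2 * π * x) :=
    deriv_comp_mul_left (2 * π) f x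
  have e1 : g = fun x => f (2 * π * x) := funext hg
  rw [e1, h, fv_resc, smul_eq_mul]
  rw [mul_div_mul_left _ _ (by positivity)]
  rfl

theorem fk1_resc (x t : ℝ) : fk1 (resc e) x t = dsR (sl e t) (curv (sl e t)) (2 * π * x) :=
  dsR_resc (g := fun x => fk (resc e) x t) (fun x => fk_resc x t) x

theorem fk2_resc (x t : ℝ) :
    fk2 (resc e) x t = dsR (sl e t) (dsR (sl e t) (curv (sl e t))) (2 * π * x) :=
  dsR_resc (g := fun x => fk1 (resc e) x t) (fun x => fk1_resc x t) x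

theorem rν_resc (x t : ℝ) :
    rν (resc e) x t = ⟪deriv (fun t' => e (2 * π * x) t') t, nor (sl e t) (2 * π * x)⟫_ℝ := by
  unfold rν nor
  rw [fT_resc, Complex.inner]
  show (deriv (fun t' => e (2 * π * x) t') t * _).im = _
  simp only [Complex.mul_im, Complex.mul_re, Complex.conj_re, Complex.conj_im, Complex.I_re,
    Complex.I_im]
  ring

/-- continuity in `θ` from continuity in `x` -/
theorem cont_resc {E : Type*} [TopologicalSpace E] {f : ℝ → E}
    (h : Continuous fun x => f (2 * π * x)) : Continuous f := by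
  have h1 : Continuous fun θ : ℝ => f (2 * π * (θ / (2 * π))) := h.comp (continuous_id.div_const _)
  refine h1.congr fun θ => ?_
  rw [show 2 * π * (θ / (2 * π)) = θ by field_simp]

theorem ref_resc (hs : ContDiff ℝ ∞ (fun p : ℝ × ℝ => e p.1 p.2))
    (hp : ∀ θ t, e (θ + 2 * π) t = e θ t)
    (hi : ∀ t ∈ Icc a b, ∀ θ, deriv (fun θ' => e θ' t) θ ≠ 0) : Ref (resc e) a b where
  smooth := by
    have h1 : ContDiff ℝ ∞ (fun p : ℝ × ℝ => ((2 * π * p.1, p.2) : ℝ × ℝ)) :=
      (contDiff_const.mul contDiff_fst).prodMk contDiff_snd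
    exact hs.comp h1
  closed := fun t x => by
    show e (2 * π * (x + 1)) t = e (2 * π * x) t
    rw [mul_add, mul_one, hp]
  immersed := fun t ht x => by
    rw [pu_resc]
    exact mul_ne_zero (by rw [Ne, Complex.ofReal_eq_zero]; positivity) (hi t ht _)

end

/-- continuity in `x` of a function which is smooth near `(x, t)` -/
theorem cont_x {E : Type} [NormedAddCommGroup E] [NormedSpace ℝ E] {f : ℝ → ℝ → E} {t : ℝ}
    (h : ∀ x, SA f x t) : Continuous fun x => f x t :=
  continuous_iff_continuousAt.2 fun x => (h x).hasDerivAt_x.continuousAt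

theorem Ref.mono {c : ℝ → ℝ → ℂ} {a b a' b' : ℝ} (h : Ref c a b) (ha : a ≤ a') (hb : b' ≤ b) :
    Ref c a' b' where
  smooth := h.smooth
  closed := h.closed
  immersed := fun t ht => h.immersed t ⟨ha.trans ht.1, ht.2.trans hb⟩

/-- integer periods -/
theorem per_int {E : Type*} {f : ℝ → E} (hp : ∀ x, f (x + 1) = f x) (n : ℤ) (x : ℝ) :
    f (x - n) = f x := by
  have := (show Function.Periodic f 1 from hp).sub_int_mul_eq (x := x) n
  simpa using this

/-- a continuous periodic function on `ℝ × [a, b]` is uniformly continuous -/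
theorem unif {E : Type*} [PseudoMetricSpace E] {f : ℝ → ℝ → E} {a b : ℝ}
    (hc : ContinuousOn (fun p : ℝ × ℝ => f p.1 p.2) (univ ×ˢ Icc a b))
    (hp : ∀ t ∈ Icc a b, ∀ x, f (x + 1) t = f x t) {ε : ℝ} (hε : 0 < ε) :
    ∃ δ : ℝ, 0 < δ ∧ ∀ t ∈ Icc a b, ∀ t' ∈ Icc a b, |t - t'| < δ → ∀ x x', |x - x'| < δ →
      dist (f x t) (f x' t') < ε := by
  have hK : IsCompact (Icc (-1 : ℝ) 2 ×ˢ Icc a b) := isCompact_Icc.prod isCompact_Icc
  have h1 := hK.uniformContinuousOn_of_continuous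
    (hc.mono (prod_mono (subset_univ _) subset_rfl))
  obtain ⟨δ, hδ, h2⟩ := Metric.uniformContinuousOn_iff.1 h1 ε hε
  refine ⟨min δ 1, lt_min hδ one_pos, fun t ht t' ht' htt x x' hx => ?_⟩
  have hx1 := abs_lt.1 (hx.trans_le (min_le_right _ _))
  have e1 : f (x - ⌊x⌋) t = f x t := per_int (f := fun x => f x t) (hp t ht) ⌊x⌋ x
  have e2 : f (x' - ⌊x⌋) t' = f x' t' := per_int (f := fun x => f x t') (hp t' ht') ⌊x⌋ x'
  rw [← e1, ← e2]
  have l1 := Int.floor_le x
  have l2 := Int.lt_floor_add_one x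
  refine h2 (x - ⌊x⌋, t) ⟨⟨by simp only; linarith, by simp only; linarith⟩, ht⟩ (x' - ⌊x⌋, t')
    ⟨⟨by simp only; linarith, by simp only; linarith⟩, ht'⟩ ?_
  show max (dist (x - ⌊x⌋) (x' - ⌊x⌋)) (dist t t') < δ
  rw [Real.dist_eq, Real.dist_eq]
  refine max_lt ?_ (htt.trans_le (min_le_left _ _))
  have e3 : x - ⌊x⌋ - (x' - ⌊x⌋) = x - x' := by ring
  rw [e3]
  exact hx.trans_le (min_le_left _ _)

/-- a function with a bounded derivative is Lipschitz -/
theorem lip_of {f f' : ℝ → ℝ} {a b L : ℝ} (hd : ∀ t ∈ Icc a b, HasDerivWithinAt f (f' t) (Icc a b) t)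
    (hL : ∀ t ∈ Icc a b, |f' t| ≤ L) : ∀ t ∈ Icc a b, |f t - f a| ≤ L * (t - a) := by
  intro t ht
  have ha : a ∈ Icc a b := ⟨le_rfl, ht.1.trans ht.2⟩
  have h := Convex.norm_image_sub_le_of_norm_hasDerivWithin_le (f := f) (C := L) hd
    (fun t ht => by rw [Real.norm_eq_abs]; exact hL t ht) (convex_Icc a b) ha ht
  rw [Real.norm_eq_abs, Real.norm_eq_abs, abs_of_nonneg (sub_nonneg.2 ht.1)] at h
  exact h

/-! ## the plane -/

theorem decomp {z T : ℂ} (hT : T * (starRingEnd ℂ) T = 1) (h : ⟪z, T⟫_ℝ = 0) :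
    z = (⟪z, Complex.I * T⟫_ℝ : ℂ) * (Complex.I * T) := by
  have h1 : T.re * T.re + T.im * T.im = 1 := by
    have := congrArg Complex.re hT
    simpa [Complex.mul_re] using this
  have h2 : z.re * T.re + z.im * T.im = 0 := by
    rw [Complex.inner] at h
    simp [Complex.mul_re] at h
    linarith
  have h3 : ⟪z, Complex.I * T⟫_ℝ = z.im * T.re - z.re * T.im := by
    rw [Complex.inner]
    simp [Complex.mul_re]
    ring
  rw [h3]
  apply Complex.ext
  · simp [Complex.mul_re]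
    linear_combination (-z.re) * h1 + T.re * h2
  · simp [Complex.mul_re]
    linear_combination (-z.im) * h1 + T.im * h2

theorem inner_wN {w : ℝ} {T : ℂ} (hT : T * (starRingEnd ℂ) T = 1) :
    ⟪(w : ℂ) * (Complex.I * T), T⟫_ℝ = 0 ∧ ⟪(w : ℂ) * (Complex.I * T), Complex.I * T⟫_ℝ = w := by
  have h1 : T.re * T.re + T.im * T.im = 1 := by
    have := congrArg Complex.re hT
    simpa [Complex.mul_re] using this
  constructor
  · rw [Complex.inner]
    simp [Complex.mul_re]
    ring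
  · rw [Complex.inner]
    simp [Complex.mul_re]
    linear_combination w * h1

theorem sq_add {A T : ℂ} (hA : A * (starRingEnd ℂ) A = 1) (hT : T * (starRingEnd ℂ) T = 1) :
    ⟪A, T⟫_ℝ ^ 2 + ⟪A, Complex.I * T⟫_ℝ ^ 2 = 1 := by
  have h1 : T.re * T.re + T.im * T.im = 1 := by
    have := congrArg Complex.re hT
    simpa [Complex.mul_re] using this
  have h2 : A.re * A.re + A.im * A.im = 1 := by
    have := congrArg Complex.re hA
    simpa [Complex.mul_re] using this
  rw [Complex.inner, Complex.inner]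
  simp [Complex.mul_re]
  linear_combination (A.re * A.re + A.im * A.im) * h1 + h2

theorem norm_one_of {A : ℂ} (hA : A * (starRingEnd ℂ) A = 1) : ‖A‖ = 1 := by
  rw [Complex.mul_conj] at hA
  have h1 : Complex.normSq A = 1 := by exact_mod_cast hA
  rw [Complex.normSq_eq_norm_sq] at h1
  have h2 : (0 : ℝ) ≤ ‖A‖ := norm_nonneg A
  nlinarith [h1, h2]

theorem inner_close {A A' N N' : ℂ} (hN : ‖N‖ = 1) (hA' : ‖A'‖ = 1) {ε : ℝ} (h1 : dist A A' < ε)
    (h2 : dist N N' < ε) : |⟪A, N⟫_ℝ - ⟪A', N'⟫_ℝ| ≤ 2 * ε := by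
  have e : ⟪A, N⟫_ℝ - ⟪A', N'⟫_ℝ = ⟪A - A', N⟫_ℝ + ⟪A', N - N'⟫_ℝ := by
    rw [inner_sub_left, inner_sub_right]
    ring
  rw [e]
  have h3 := abs_real_inner_le_norm (A - A') N
  have h4 := abs_real_inner_le_norm A' (N - N')
  rw [hN, mul_one, ← dist_eq_norm] at h3
  rw [hA', one_mul, ← dist_eq_norm] at h4
  have h5 := abs_add_le (⟪A - A', N⟫_ℝ) (⟪A', N - N'⟫_ℝ)
  linarith

end Pool.Agent.helper19.EM
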