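import Mathlib

/-!
# EM: bounded Lipschitz families

`BL a b f` : `f : ℝ → X → ℝ` is bounded and Lipschitz in the second variable, uniformly for
`t ∈ [a, b]`, and continuous in `t ∈ [a, b]`.
-/

set_option autoImplicit false

open Set Metric
open scoped NNReal Topology

namespace Pool.Agent.helper19.EM

/-- bounded, Lipschitz in the state, continuous in time; uniformly on `[a, b]` -/
structure BL (a b : ℝ) {X : Type*} [PseudoMetricSpace X] (f : ℝ → X → ℝ) : Prop where
  ex : ∃ L : ℝ, 0 ≤ L ∧ ∀ t ∈ Icc a b, (∀ p, |f t p| ≤ L) ∧ ∀ p q, |f t p - f t q| ≤ L * dist p q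
  cont : ∀ p, ContinuousOn (fun t => f t p) (Icc a b)

namespace BL

variable {a b : ℝ} {X : Type*} [PseudoMetricSpace X] {f g : ℝ → X → ℝ}

theorem const (r : ℝ) : BL a b (fun _ (_ : X) => r) where
  ex := ⟨|r|, abs_nonneg r, fun t _ => ⟨fun _ => le_rfl, fun p q => by
    rw [sub_self, abs_zero]; positivity⟩⟩
  cont := fun _ => continuousOn_const

theorem add (hf : BL a b f) (hg : BL a b g) : BL a b (fun t p => f t p + g t p) where
  ex := by
    obtain ⟨L, hL, h1⟩ := hf.ex
    obtain ⟨M, hM, h2⟩ := hg.ex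
    refine ⟨L + M, by positivity, fun t ht => ⟨fun p => ?_, fun p q => ?_⟩⟩
    · exact (abs_add_le _ _).trans (add_le_add ((h1 t ht).1 p) ((h2 t ht).1 p))
    · have e : f t p + g t p - (f t q + g t q) = (f t p - f t q) + (g t p - g t q) := by ring
      rw [e, add_mul]
      exact (abs_add_le _ _).trans (add_le_add ((h1 t ht).2 p q) ((h2 t ht).2 p q))
  cont := fun p => (hf.cont p).add (hg.cont p)

theorem mul (hf : BL a b f) (hg : BL a b g) : BL a b (fun t p => f t p * g t p) where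
  ex := by
    obtain ⟨L, hL, h1⟩ := hf.ex
    obtain ⟨M, hM, h2⟩ := hg.ex
    refine ⟨L * M + L * M, by positivity, fun t ht => ⟨fun p => ?_, fun p q => ?_⟩⟩
    · rw [abs_mul]
      have := mul_le_mul ((h1 t ht).1 p) ((h2 t ht).1 p) (abs_nonneg _) hL
      have h3 : 0 ≤ L * M := by positivity
      linarith
    · have e : f t p * g t p - f t q * g t q =
          (f t p - f t q) * g t p + f t q * (g t p - g t q) := by ring
      rw [e, add_mul]
      refine (abs_add_le _ _).trans (add_le_add ?_ ?_)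
      · rw [abs_mul]
        have := mul_le_mul ((h1 t ht).2 p q) ((h2 t ht).1 p) (abs_nonneg _) (by positivity)
        linarith
      · rw [abs_mul]
        have := mul_le_mul ((h1 t ht).1 q) ((h2 t ht).2 p q) (abs_nonneg _) hL
        linarith
  cont := fun p => (hf.cont p).mul (hg.cont p)

theorem neg (hf : BL a b f) : BL a b (fun t p => -f t p) := by
  have h := (BL.const (a := a) (b := b) (X := X) (-1)).mul hf
  simpa using h

theorem sub (hf : BL a b f) (hg : BL a b g) : BL a b (fun t p => f t p - g t p) := by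
  have h := hf.add hg.neg
  simpa [sub_eq_add_neg] using h

theorem inv (hf : BL a b f) {δ : ℝ} (hδ : 0 < δ) (h : ∀ t ∈ Icc a b, ∀ p, δ ≤ f t p) :
    BL a b (fun t p => (f t p)⁻¹) where
  ex := by
    obtain ⟨L, hL, h1⟩ := hf.ex
    refine ⟨max δ⁻¹ (L * (δ⁻¹ * δ⁻¹)), by positivity, fun t ht => ⟨fun p => ?_, fun p q => ?_⟩⟩
    · have hp : 0 < f t p := hδ.trans_le (h t ht p)
      rw [abs_inv, abs_of_pos hp]
      exact (inv_anti₀ hδ (h t ht p)).trans (le_max_left _ _)
    · have hp : 0 < f t p := hδ.trans_le (h t ht p)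
      have hq : 0 < f t q := hδ.trans_le (h t ht q)
      have e : (f t p)⁻¹ - (f t q)⁻¹ = -(f t p - f t q) * ((f t p)⁻¹ * (f t q)⁻¹) := by
        field_simp
        ring
      rw [e, abs_mul, abs_neg]
      have h2 : |(f t p)⁻¹ * (f t q)⁻¹| ≤ δ⁻¹ * δ⁻¹ := by
        rw [abs_mul, abs_inv, abs_inv, abs_of_pos hp, abs_of_pos hq]
        exact mul_le_mul (inv_anti₀ hδ (h t ht p)) (inv_anti₀ hδ (h t ht q)) (by positivity)
          (by positivity)
      have h3 := mul_le_mul ((h1 t ht).2 p q) h2 (abs_nonneg _) (by positivity)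
      have h4 : L * dist p q * (δ⁻¹ * δ⁻¹) ≤ max δ⁻¹ (L * (δ⁻¹ * δ⁻¹)) * dist p q := by
        have := mul_le_mul_of_nonneg_right (le_max_right δ⁻¹ (L * (δ⁻¹ * δ⁻¹)))
          (dist_nonneg (x := p) (y := q))
        linarith
      exact h3.trans h4
  cont := fun p => (hf.cont p).inv₀ fun t ht => (hδ.trans_le (h t ht p)).ne'

/-- composition with a 1-Lipschitz function of the state -/
theorem comp {F : ℝ → ℝ → ℝ} (hF : BL a b F) {y : X → ℝ} (hy : ∀ p q, |y p - y q| ≤ dist p q) :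
    BL a b (fun t p => F t (y p)) where
  ex := by
    obtain ⟨L, hL, h1⟩ := hF.ex
    refine ⟨L, hL, fun t ht => ⟨fun p => (h1 t ht).1 _, fun p q => ?_⟩⟩
    refine ((h1 t ht).2 _ _).trans ?_
    exact mul_le_mul_of_nonneg_left (by rw [Real.dist_eq]; exact hy p q) hL
  cont := fun p => hF.cont _

end BL

/-- the cut-off -/
noncomputable def clamp (r x : ℝ) : ℝ := max (-r) (min r x)

theorem abs_clamp {r : ℝ} (hr : 0 ≤ r) (x : ℝ) : |clamp r x| ≤ r := by
  unfold clamp
  rw [abs_le]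
  exact ⟨le_max_left _ _, max_le (by linarith) (min_le_left _ _)⟩

theorem clamp_of {r x : ℝ} (h : |x| ≤ r) : clamp r x = x := by
  unfold clamp
  rw [abs_le] at h
  rw [min_eq_right h.2, max_eq_right h.1]

theorem clamp_lip (r x y : ℝ) : |clamp r x - clamp r y| ≤ |x - y| := by
  unfold clamp
  have h1 : |max (-r) (min r x) - max (-r) (min r y)| ≤ |min r x - min r y| := by
    have := abs_max_sub_max_le_max (-r) (min r x) (-r) (min r y)
    simpa using this
  have h2 : |min r x - min r y| ≤ |x - y| := by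
    have := abs_min_sub_min_le_max r x r y
    simpa using this
  exact h1.trans h2

theorem BL.clamp {a b : ℝ} {X : Type*} [PseudoMetricSpace X] {r : ℝ} (hr : 0 ≤ r) {y : X → ℝ}
    (hy : ∀ p q, |y p - y q| ≤ dist p q) : BL a b (fun _ p => EM.clamp r (y p)) where
  ex := ⟨max r 1, by positivity, fun t _ => ⟨fun p => (abs_clamp hr _).trans (le_max_left _ _),
    fun p q => by
      refine ((clamp_lip r _ _).trans (hy p q)).trans ?_
      have := mul_le_mul_of_nonneg_right (le_max_right r 1) (dist_nonneg (x := p) (y := q))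
      linarith⟩⟩
  cont := fun _ => continuousOn_const

/-- bounds for periodic functions -/
theorem per_bound {F : ℝ → ℝ → ℝ} {a b : ℝ}
    (hc : ContinuousOn (fun p : ℝ × ℝ => F p.1 p.2) (univ ×ˢ Icc a b))
    (hp : ∀ t ∈ Icc a b, ∀ y, F (y + 1) t = F y t) :
    ∃ L : ℝ, 0 ≤ L ∧ ∀ t ∈ Icc a b, ∀ y, |F y t| ≤ L := by
  have h1 : IsCompact (Icc (0 : ℝ) 1 ×ˢ Icc a b) := isCompact_Icc.prod isCompact_Icc
  obtain ⟨L, hL⟩ := h1.exists_bound_of_continuousOn
    (hc.mono (prod_mono (subset_univ _) subset_rfl))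
  refine ⟨max L 0, le_max_right _ _, fun t ht y => ?_⟩
  have h2 : Function.Periodic (fun y => F y t) 1 := hp t ht
  obtain ⟨y', hy', e⟩ := h2.exists_mem_Ico₀ one_pos y
  rw [e]
  exact (hL (y', t) ⟨Ico_subset_Icc_self hy', ht⟩).trans (le_max_left _ _)

/-- lower bound for a positive periodic function -/
theorem per_pos {F : ℝ → ℝ → ℝ} {a b : ℝ}
    (hc : ContinuousOn (fun p : ℝ × ℝ => F p.1 p.2) (univ ×ˢ Icc a b))
    (hp : ∀ t ∈ Icc a b, ∀ y, F (y + 1) t = F y t)
    (h0 : ∀ t ∈ Icc a b, ∀ y, 0 < F y t) :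
    ∃ δ : ℝ, 0 < δ ∧ ∀ t ∈ Icc a b, ∀ y, δ ≤ F y t := by
  obtain ⟨L, hL, h⟩ := per_bound (F := fun y t => (F y t)⁻¹)
    (hc.inv₀ fun p hp => (h0 p.2 hp.2 p.1).ne') (fun t ht y => by rw [hp t ht])
  refine ⟨(L + 1)⁻¹, by positivity, fun t ht y => ?_⟩
  have h1 := h t ht y
  have h2 := h0 t ht y
  rw [abs_of_pos (inv_pos.2 h2)] at h1
  exact inv_le_of_inv_le₀ h2 (by linarith)

/-- smooth periodic functions are bounded Lipschitz families -/
theorem BL.of_der {F F' : ℝ → ℝ → ℝ} {a b : ℝ}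
    (hd : ∀ t ∈ Icc a b, ∀ y, HasDerivAt (fun y => F y t) (F' y t) y)
    (hc : ContinuousOn (fun p : ℝ × ℝ => F p.1 p.2) (univ ×ˢ Icc a b))
    (hc' : ContinuousOn (fun p : ℝ × ℝ => F' p.1 p.2) (univ ×ˢ Icc a b))
    (hp : ∀ t ∈ Icc a b, ∀ y, F (y + 1) t = F y t)
    (hp' : ∀ t ∈ Icc a b, ∀ y, F' (y + 1) t = F' y t) : BL a b (fun t y => F y t) where
  ex := by
    obtain ⟨L, hL, h1⟩ := per_bound hc hp
    obtain ⟨M, hM, h2⟩ := per_bound hc' hp'
    refine ⟨max L M, by positivity, fun t ht => ⟨fun p => (h1 t ht p).trans (le_max_left _ _),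
      fun p q => ?_⟩⟩
    have h3 := (convex_univ : Convex ℝ (univ : Set ℝ)).norm_image_sub_le_of_norm_hasDerivWithin_le
      (f := fun y => F y t) (f' := fun y => F' y t) (C := M)
      (fun y _ => (hd t ht y).hasDerivWithinAt) (fun y _ => h2 t ht y) (mem_univ q) (mem_univ p)
    rw [Real.norm_eq_abs, Real.norm_eq_abs] at h3
    refine h3.trans ?_
    rw [Real.dist_eq]
    exact mul_le_mul_of_nonneg_right (le_max_right _ _) (abs_nonneg _)
  cont := fun y t ht => by
    have h1 := hc (y, t) ⟨mem_univ _, ht⟩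
    have h2 : ContinuousWithinAt (fun t => ((y, t) : ℝ × ℝ)) (Icc a b) t :=
      (continuous_const.prodMk continuous_id).continuousWithinAt
    exact h1.comp h2 (fun s hs => ⟨mem_univ _, hs⟩)

end Pool.Agent.helper19.EM
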