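import Pool.Agent.helper19.EM.LiftT

/-!
# EM: the continuation principle
-/

set_option autoImplicit false

open scoped Topology
open Set Pool.Agent.helper19.EL

namespace Pool.Agent.helper19.EM

/-- **Continuation.** If `G ≤ 1` on `[a, t]` implies `G < 1` at time `t`, then `G < 1` on
`[a, b]`. -/
theorem continuation {G : ℝ → ℝ → ℝ} {a b : ℝ}
    (hc : ContinuousOn (fun p : ℝ × ℝ => G p.1 p.2) (univ ×ˢ Icc a b))
    (hp : ∀ t ∈ Icc a b, ∀ u, G (u + 1) t = G u t) (ha : ∀ u, G u a ≤ 1)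
    (h : ∀ t ∈ Icc a b, (∀ s ∈ Icc a t, ∀ u, G u s ≤ 1) → ∀ u, G u t < 1) :
    ∀ t ∈ Icc a b, ∀ u, G u t < 1 := by
  have key : ∀ t ∈ Icc a b, ∀ u ∈ Icc (0 : ℝ) 1, G u t < 1 := by
    by_contra hcon
    push Not at hcon
    obtain ⟨t₁, ht₁, u₁, hu₁, h₁⟩ := hcon
    set K : Set (ℝ × ℝ) := (Icc 0 1 ×ˢ Icc a b) ∩ (fun p : ℝ × ℝ => G p.1 p.2) ⁻¹' Ici 1 with hK
    have hKc : IsCompact K := by
      have h1 : IsClosed K := (hc.mono (prod_mono (subset_univ _) subset_rfl)).preimage_isClosed_of_isClosed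
        (isClosed_Icc.prod isClosed_Icc) isClosed_Ici
      exact (isCompact_Icc.prod isCompact_Icc).of_isClosed_subset h1 inter_subset_left
    have hB : IsCompact (Prod.snd '' K) := hKc.image continuous_snd
    obtain ⟨t₀, ht₀, hmin⟩ := hB.exists_isLeast ⟨t₁, (u₁, t₁), ⟨⟨hu₁, ht₁⟩, h₁⟩, rfl⟩
    obtain ⟨⟨u₀, t₀'⟩, ⟨⟨hu₀, hb₀⟩, hG₀⟩, rfl⟩ := ht₀
    simp only at hb₀ hu₀ hG₀ hmin ⊢
    -- before `t₀`
    have hlt : ∀ s ∈ Icc a b, s < t₀' → ∀ u, G u s ≤ 1 := by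
      intro s hs hst u
      by_contra hgt
      push Not at hgt
      have hper : Function.Periodic (fun u => G u s) 1 := hp s hs
      obtain ⟨y, hy, hye⟩ := hper.exists_mem_Ico₀ one_pos u
      have h2 : s ∈ Prod.snd '' K := by
        refine ⟨(y, s), ⟨⟨⟨hy.1, hy.2.le⟩, hs⟩, ?_⟩, rfl⟩
        show 1 ≤ G y s
        have : G u s = G y s := hye
        linarith
      exact absurd (hmin h2) (not_le.2 hst)
    have hle : ∀ s ∈ Icc a t₀', ∀ u, G u s ≤ 1 := by
      intro s hs u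
      rcases hs.2.lt_or_eq with hst | rfl
      · exact hlt s ⟨hs.1, hst.le.trans hb₀.2⟩ hst u
      · rcases hs.1.eq_or_lt with rfl | has
        · exact ha u
        · -- limit from the left
          have h1 : ContinuousWithinAt (fun r => G u r) (Icc a b) s := by
            have h2 := hc (u, s) ⟨mem_univ _, hb₀⟩
            have h3 : ContinuousWithinAt (fun r => ((u, r) : ℝ × ℝ)) (Icc a b) s :=
              (continuous_const.prodMk continuous_id).continuousWithinAt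
            exact h2.comp h3 fun r hr => ⟨mem_univ _, hr⟩
          have h4 : ContinuousWithinAt (fun r => G u r) (Ioo a s) s :=
            h1.mono fun r hr => ⟨hr.1.le, hr.2.le.trans hb₀.2⟩
          have : (𝓝[Ioo a s] s).NeBot := by
            rw [nhdsWithin_Ioo_eq_nhdsLT has]
            infer_instance
          refine le_of_tendsto h4 ?_
          filter_upwards [self_mem_nhdsWithin] with r hr
          exact hlt r ⟨hr.1.le, hr.2.le.trans hb₀.2⟩ hr.2 u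
    exact absurd (h t₀' hb₀ hle u₀) (not_lt.2 hG₀)
  intro t ht u
  have hper : Function.Periodic (fun u => G u t) 1 := hp t ht
  obtain ⟨y, hy, hye⟩ := hper.exists_mem_Ico₀ one_pos u
  have : G u t = G y t := hye
  rw [this]
  exact key t ht y ⟨hy.1, hy.2.le⟩

section

variable {γ c : ℝ → ℝ → ℂ} {T a b ρ s₀ : ℝ} {x w : ℝ → ℝ → ℝ}

/-- **Continuation of the lift.**  If the bounds `|w| ≤ ρ`, `|S| ≤ s₀` on `[a, t]` imply the
strict bounds at time `t`, then they hold on `[a, b]`. -/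
theorem Lift.continuation (L : Lift γ c a b ρ x w) (h : IsFlow γ T) (hc : Ref c a b)
    (h0 : 0 ≤ a) (hbT : b < T) (hρ : 0 < ρ) (hs₀ : 0 < s₀)
    (ha : ∀ u, |w u a| ≤ ρ ∧ |SS γ c u (x u a) a| ≤ s₀)
    (hap : ∀ t ∈ Icc a b, (∀ s ∈ Icc a t, ∀ u, |w u s| ≤ ρ ∧ |SS γ c u (x u s) s| ≤ s₀) →
      ∀ u, |w u t| < ρ ∧ |SS γ c u (x u t) t| < s₀) :
    ∀ t ∈ Icc a b, ∀ u, |w u t| < ρ ∧ |SS γ c u (x u t) t| < s₀ := by
  have hsub : Icc a b ⊆ Ico 0 T := fun t ht => ⟨h0.trans ht.1, ht.2.trans_lt hbT⟩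
  have e1 : ∀ u t, max (|w u t| / ρ) (|SS γ c u (x u t) t| / s₀) ≤ 1 ↔
      |w u t| ≤ ρ ∧ |SS γ c u (x u t) t| ≤ s₀ := fun u t => by
    rw [max_le_iff, div_le_one hρ, div_le_one hs₀]
  have e2 : ∀ u t, max (|w u t| / ρ) (|SS γ c u (x u t) t| / s₀) < 1 ↔
      |w u t| < ρ ∧ |SS γ c u (x u t) t| < s₀ := fun u t => by
    rw [max_lt_iff, div_lt_one hρ, div_lt_one hs₀]
  have key := EM.continuation
    (G := fun u t => max (|w u t| / ρ) (|SS γ c u (x u t) t| / s₀)) (a := a) (b := b)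
    (ContinuousOn.sup (L.cw.abs.div_const ρ) ((L.cont_SS h hc hsub).abs.div_const s₀)) ?_
    (fun u => (e1 u a).2 (ha u)) ?_
  · exact fun t ht u => (e2 u t).1 (key t ht u)
  · intro t ht u
    have h1 : SS γ c (u + 1) (x (u + 1) t) t = SS γ c u (x u t) t := by
      unfold SS
      rw [L.px t ht, hc.p_T, h.p_T (hsub ht)]
    simp only [L.pw t ht, h1]
  · intro t ht hh u
    exact (e2 u t).2 (hap t ht (fun s hs u => (e1 u s).1 (hh s hs u)) u)

end

end Pool.Agent.helper19.EM
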