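import Pool.Agent.helper19.EL.Per

/-!
# EM: the exact energy identity for a normal graph

`' = d/ds` is the arc length derivative of the true curve, `k, k₁, k₂` the curvature of the
reference curve and its arc length derivatives at the foot point, `K` the curvature of the true
curve, `C + i S` the direction of the true tangent relative to the reference tangent,
`m = 1 / (1 - k w)`, `ψ = K - k C m`.
-/

set_option autoImplicit false

open Set Pool.Agent.helper19.EL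

namespace Pool.Agent.helper19.EM

/-! ### The polynomials -/

section poly

variable (K K₁ K₂ w C S k k₁ k₂ m ν : ℝ)

/-- `ψ = K - k C m` -/
noncomputable def pψ : ℝ := K - k * C * m

/-- `b = (k w)'` -/
noncomputable def pb : ℝ := k * S + k₁ * C * m * w

/-- `B = C m² b` -/
noncomputable def pB : ℝ := C * m ^ 2 * pb w C S k k₁ m

/-- `κ' = (k C m)'` -/
noncomputable def pκ' : ℝ := k₁ * C ^ 2 * m ^ 2 - k * m * S * pψ K C k m + k * C * m ^ 2 * pb w C S k k₁ m

/-- `η' = (w ψ)'` -/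
noncomputable def pη' : ℝ := S * pψ K C k m + w * (K₁ - pκ' K w C S k k₁ m)

/-- `b'` -/
noncomputable def pb' : ℝ := 2 * k₁ * C * m * S + k * C * pψ K C k m + k₂ * C ^ 2 * m ^ 2 * w -
  k₁ * m * S * w * pψ K C k m + k₁ * C * m ^ 2 * w * pb w C S k k₁ m

/-- `B'` -/
noncomputable def pB' : ℝ := -(pψ K C k m * S * m ^ 2 * pb w C S k k₁ m) +
  2 * C * m ^ 3 * pb w C S k k₁ m ^ 2 + C * m ^ 2 * pb' K w C S k k₁ k₂ m

/-- the integrand of the derivative of `1/2 ∫ w² ds` -/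
noncomputable def pR : ℝ := w * (-((K₂ + K ^ 3 / 2) * C) - ν) + w ^ 2 / 2 * ((K₂ + K ^ 3 / 2) * K)

/-- the potential -/
noncomputable def pΦ : ℝ := K₁ * (w * C - K * w ^ 2 / 2) + K ^ 2 * w * S / 2 - K * S * C * m +
  pB w C S k k₁ m * (w * pψ K C k m) + k * S - k₁ * w

/-- the derivative of the potential -/
noncomputable def pΦ' : ℝ := K₂ * (w * C - K * w ^ 2 / 2) +
  K₁ * (S * C - w * (pψ K C k m * S) - (K₁ * w ^ 2 / 2 + K * w * S)) +
  (K * K₁ * w * S + K ^ 2 * S * S / 2 + K ^ 2 * w * (pψ K C k m * C) / 2) -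
  (K₁ * S * C * m + K * (pψ K C k m * C) * C * m - K * S * (pψ K C k m * S) * m +
    K * S * C * (m ^ 2 * pb w C S k k₁ m)) +
  (pB' K w C S k k₁ k₂ m * (w * pψ K C k m) +
    pB w C S k k₁ m * pη' K K₁ w C S k k₁ m) +
  (k₁ * C * m * S + k * (pψ K C k m * C)) - (k₂ * C * m * w + k₁ * S)

/-- the final integrand, without the residual -/
noncomputable def pP : ℝ := (C * m - 1) * (k₁ * S - k₂ * w) +
  k * C * pψ K C k m * (1 - m ^ 2 * (C ^ 2 - S ^ 2)) -
  pψ K C k m ^ 2 * (C ^ 2 - S ^ 2) * m - K * S * pB w C S k k₁ m +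
  K ^ 2 * (S ^ 2 - k * w * m * C ^ 2 / 2) + k ^ 3 * w / 2 - pB w C S k k₁ m ^ 2 / 2 +
  pB w C S k k₁ m * (k * m * S * (w * pψ K C k m)) -
  (k * m * S * (w * pψ K C k m)) ^ 2 / 2 + pB' K w C S k k₁ k₂ m * (w * pψ K C k m) +
  k * m * S * (w * pψ K C k m) * pη' K K₁ w C S k k₁ m - pη' K K₁ w C S k k₁ m ^ 2 / 2 +
  w ^ 2 * K ^ 4 / 4

/-- **The identity**: `R + Φ' = P - w r`, `r = ν + k₂ + k³ / 2`. -/
theorem alg_id (hm : m = 1 + k * w * m) :
    pR K K₂ w C ν + pΦ' K K₁ K₂ w C S k k₁ k₂ m =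
      pP K K₁ w C S k k₁ k₂ m - w * (ν + k₂ + k ^ 3 / 2) := by
  have h0 : m - 1 - k * w * m = 0 := by linarith
  unfold pR pΦ' pP pη' pB' pB pb' pκ' pb pψ
  linear_combination (-(K₁ * S * C) + C * m * (k * S + k₁ * C * m * w) *
    (w * K₁ + S * K + (1/2) * C * m * (k * S + k₁ * C * m * w) * (m - 1 - k * w * m))) * h0

end poly

end Pool.Agent.helper19.EM
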