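import Pool.Agent.helper19.EM.GD

/-!
# EM: the exact energy identity, integrated
-/

set_option autoImplicit false

open Set Pool.Agent.helper19.EL MeasureTheory

namespace Pool.Agent.helper19.EM

/-- graph data at a fixed time: periodic functions along the true curve -/
structure GD (v K K₁ K₂ w C S k k₁ k₂ : ℝ → ℝ) : Prop where
  vc : Continuous v
  v0 : ∀ u, 0 < v u
  K2c : Continuous K₂
  k2c : Continuous k₂
  dK : ∀ u, HasDerivAt K (v u * K₁ u) u
  dK1 : ∀ u, HasDerivAt K₁ (v u * K₂ u) u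
  dw : ∀ u, HasDerivAt w (v u * S u) u
  dC : ∀ u, HasDerivAt C (-(v u * ((K u - k u * C u * (1 - k u * w u)⁻¹) * S u))) u
  dS : ∀ u, HasDerivAt S (v u * ((K u - k u * C u * (1 - k u * w u)⁻¹) * C u)) u
  dk : ∀ u, HasDerivAt k (v u * (C u * (1 - k u * w u)⁻¹ * k₁ u)) u
  dk1 : ∀ u, HasDerivAt k₁ (v u * (C u * (1 - k u * w u)⁻¹ * k₂ u)) u
  ne : ∀ u, 1 - k u * w u ≠ 0
  circ : ∀ u, C u ^ 2 + S u ^ 2 = 1
  pv : Function.Periodic v 1
  pK : Function.Periodic K 1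
  pK1 : Function.Periodic K₁ 1
  pw : Function.Periodic w 1
  pC : Function.Periodic C 1
  pS : Function.Periodic S 1
  pk : Function.Periodic k 1
  pk1 : Function.Periodic k₁ 1

namespace GD

variable {v K K₁ K₂ w C S k k₁ k₂ : ℝ → ℝ} (g : GD v K K₁ K₂ w C S k k₁ k₂)

/-- `m = 1 / (1 - k w)` -/
noncomputable def m (k w : ℝ → ℝ) (u : ℝ) : ℝ := (1 - k u * w u)⁻¹

include g

theorem m_eq (u : ℝ) : m k w u = 1 + k u * w u * m k w u := by
  have h := g.ne u
  unfold m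
  field_simp
  ring

theorem dm (u : ℝ) : HasDerivAt (m k w)
    (v u * (m k w u ^ 2 * pb (w u) (C u) (S u) (k u) (k₁ u) (m k w u))) u := by
  have h1 := (((g.dk u).mul (g.dw u)).const_sub 1).inv (g.ne u)
  refine h1.congr_deriv ?_
  have h := g.ne u
  unfold pb m
  simp only [Pi.mul_apply]
  field_simp
  ring

theorem dC' (u : ℝ) : HasDerivAt C (-(v u * (pψ (K u) (C u) (k u) (m k w u) * S u))) u :=
  g.dC u

theorem dS' (u : ℝ) : HasDerivAt S (v u * (pψ (K u) (C u) (k u) (m k w u) * C u)) u :=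
  g.dS u

theorem dψ (u : ℝ) : HasDerivAt (fun u => pψ (K u) (C u) (k u) (m k w u))
    (v u * (K₁ u - pκ' (K u) (w u) (C u) (S u) (k u) (k₁ u) (m k w u))) u := by
  have h1 := (g.dK u).sub (((g.dk u).mul (g.dC' u)).mul (g.dm u))
  refine h1.congr_deriv ?_
  unfold pκ'
  simp only [Pi.mul_apply]
  have e : (1 - k u * w u)⁻¹ = m k w u := rfl
  rw [e]
  ring

theorem dη (u : ℝ) : HasDerivAt (fun u => w u * pψ (K u) (C u) (k u) (m k w u))
    (v u * pη' (K u) (K₁ u) (w u) (C u) (S u) (k u) (k₁ u) (m k w u)) u := by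
  refine ((g.dw u).mul (g.dψ u)).congr_deriv ?_
  unfold pη'
  ring

theorem db (u : ℝ) : HasDerivAt (fun u => pb (w u) (C u) (S u) (k u) (k₁ u) (m k w u))
    (v u * pb' (K u) (w u) (C u) (S u) (k u) (k₁ u) (k₂ u) (m k w u)) u := by
  have h1 := ((g.dk u).mul (g.dS' u)).add
    ((((g.dk1 u).mul (g.dC' u)).mul (g.dm u)).mul (g.dw u))
  refine h1.congr_deriv ?_
  unfold pb'
  simp only [Pi.mul_apply]
  have e : (1 - k u * w u)⁻¹ = m k w u := rfl
  rw [e]
  ring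

theorem dB (u : ℝ) : HasDerivAt (fun u => pB (w u) (C u) (S u) (k u) (k₁ u) (m k w u))
    (v u * pB' (K u) (w u) (C u) (S u) (k u) (k₁ u) (k₂ u) (m k w u)) u := by
  have h1 := ((g.dC' u).mul ((g.dm u).pow 2)).mul (g.db u)
  refine h1.congr_deriv ?_
  unfold pB'
  simp only [Pi.mul_apply, Pi.pow_apply]
  ring

theorem dΦ (u : ℝ) : HasDerivAt
    (fun u => pΦ (K u) (K₁ u) (w u) (C u) (S u) (k u) (k₁ u) (m k w u))
    (v u * pΦ' (K u) (K₁ u) (K₂ u) (w u) (C u) (S u) (k u) (k₁ u) (k₂ u) (m k w u)) u := by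
  have h1 := (g.dK1 u).mul (((g.dw u).mul (g.dC' u)).sub
    (((g.dK u).mul ((g.dw u).pow 2)).div_const 2))
  have h2 := ((((g.dK u).pow 2).mul (g.dw u)).mul (g.dS' u)).div_const 2
  have h3 := (((g.dK u).mul (g.dS' u)).mul (g.dC' u)).mul (g.dm u)
  have h4 := (g.dB u).mul (g.dη u)
  have h5 := (g.dk u).mul (g.dS' u)
  have h6 := (g.dk1 u).mul (g.dw u)
  refine (((((h1.add h2).sub h3).add h4).add h5).sub h6).congr_deriv ?_
  unfold pΦ'
  simp only [Pi.mul_apply, Pi.pow_apply, Pi.sub_apply, Pi.div_apply]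
  have e : (1 - k u * w u)⁻¹ = m k w u := rfl
  rw [e]
  ring

end GD

end Pool.Agent.helper19.EM
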