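import Pool.Agent.helper19.EL.IntEvo

/-!
# EM: the reference curve

`c : ℝ → ℝ → ℂ` is an explicit smooth family of closed curves, immersed for `t ∈ [a, b]`.
`SA f x t` : `f` is smooth near `(x, t)`.
-/

set_option autoImplicit false

open scoped Real ContDiff ComplexConjugate InnerProductSpace Topology
open Set Pool.Agent.helper19.EL

namespace Pool.Agent.helper19.EM

section SA

variable {E : Type} [NormedAddCommGroup E] [NormedSpace ℝ E] {f : ℝ → ℝ → E} {x t : ℝ}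

/-- smooth near `(x, t)` -/
def SA (f : ℝ → ℝ → E) (x t : ℝ) : Prop :=
  ∀ᶠ p : ℝ × ℝ in 𝓝 (x, t), ContDiffAt ℝ ∞ (fun p : ℝ × ℝ => f p.1 p.2) p

theorem SA.at (h : SA f x t) : ContDiffAt ℝ ∞ (fun p : ℝ × ℝ => f p.1 p.2) (x, t) :=
  h.self_of_nhds

theorem SA.eventually (h : SA f x t) : ∀ᶠ p : ℝ × ℝ in 𝓝 (x, t), SA f p.1 p.2 :=
  eventually_eventually_nhds.2 h

theorem SA.hasFDerivAt (h : SA f x t) : HasFDerivAt (fun p : ℝ × ℝ => f p.1 p.2)
    (fderiv ℝ (fun p : ℝ × ℝ => f p.1 p.2) (x, t)) (x, t) :=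
  (h.at.differentiableAt (by simp)).hasFDerivAt

theorem SA.pu_eq (h : SA f x t) :
    pu f x t = fderiv ℝ (fun p : ℝ × ℝ => f p.1 p.2) (x, t) (1, 0) := by
  have h2 : HasDerivAt (fun x' : ℝ => ((x', t) : ℝ × ℝ)) (1, 0) x :=
    (hasDerivAt_id x).prodMk (hasDerivAt_const x t)
  exact (HasFDerivAt.comp_hasDerivAt x h.hasFDerivAt h2).deriv

theorem SA.pt_eq (h : SA f x t) :
    pt f x t = fderiv ℝ (fun p : ℝ × ℝ => f p.1 p.2) (x, t) (0, 1) := by
  have h2 : HasDerivAt (fun t' : ℝ => ((x, t') : ℝ × ℝ)) (0, 1) t :=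
    (hasDerivAt_const t x).prodMk (hasDerivAt_id t)
  exact (HasFDerivAt.comp_hasDerivAt t h.hasFDerivAt h2).deriv

theorem SA.fderiv_apply (h : SA f x t) (r s : ℝ) :
    fderiv ℝ (fun p : ℝ × ℝ => f p.1 p.2) (x, t) (r, s) = r • pu f x t + s • pt f x t := by
  rw [h.pu_eq, h.pt_eq, ← map_smul, ← map_smul, ← map_add]
  congr 1
  simp

/-- the derivative along a path -/
theorem SA.path {X : ℝ → ℝ} {X' : ℝ} {s : Set ℝ} (h : SA f (X t) t)
    (hX : HasDerivWithinAt X X' s t) :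
    HasDerivWithinAt (fun r => f (X r) r) (X' • pu f (X t) t + pt f (X t) t) s t := by
  have h2 : HasDerivWithinAt (fun r : ℝ => ((X r, r) : ℝ × ℝ)) (X', 1) s t :=
    hX.prodMk (hasDerivWithinAt_id t s)
  have h1 : HasFDerivAt (fun p : ℝ × ℝ => f p.1 p.2)
      (fderiv ℝ (fun p : ℝ × ℝ => f p.1 p.2) (X t, t)) ((fun r : ℝ => ((X r, r) : ℝ × ℝ)) t) :=
    h.hasFDerivAt
  have h3 := HasFDerivAt.comp_hasDerivWithinAt (f := fun r : ℝ => ((X r, r) : ℝ × ℝ)) t h1 h2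
  rw [h.fderiv_apply, one_smul] at h3
  exact h3

/-- the derivative along a curve at fixed time -/
theorem SA.slice {X : ℝ → ℝ} {X' u : ℝ} (h : SA f (X u) t) (hX : HasDerivAt X X' u) :
    HasDerivAt (fun r => f (X r) t) (X' • pu f (X u) t) u := by
  have h2 : HasDerivAt (fun r : ℝ => ((X r, t) : ℝ × ℝ)) (X', 0) u :=
    hX.prodMk (hasDerivAt_const u t)
  have h3 := HasFDerivAt.comp_hasDerivAt u h.hasFDerivAt h2
  rw [h.fderiv_apply, zero_smul, add_zero] at h3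
  exact h3

theorem SA.hasDerivAt_x (h : SA f x t) : HasDerivAt (fun x => f x t) (pu f x t) x := by
  have := h.slice (X := fun x => x) (hasDerivAt_id x)
  simpa using this

theorem SA.hasDerivAt_t (h : SA f x t) : HasDerivAt (fun t => f x t) (pt f x t) t := by
  have h2 : HasDerivAt (fun t' : ℝ => ((x, t') : ℝ × ℝ)) (0, 1) t :=
    (hasDerivAt_const t x).prodMk (hasDerivAt_id t)
  rw [h.pt_eq]
  exact HasFDerivAt.comp_hasDerivAt t h.hasFDerivAt h2

theorem SA.pu (h : SA f x t) : SA (EL.pu f) x t := by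
  refine h.eventually.mono fun q hq => ?_
  have h1 : ContDiffAt ℝ ∞ (fun p => _root_.fderiv ℝ (fun p : ℝ × ℝ => f p.1 p.2) p (1, 0))
      q := (ContDiffAt.fderiv_right hq.at (by simp)).clm_apply contDiffAt_const
  refine h1.congr_of_eventuallyEq ?_
  filter_upwards [hq.eventually] with p hp
  exact hp.pu_eq

theorem SA.pt (h : SA f x t) : SA (EL.pt f) x t := by
  refine h.eventually.mono fun q hq => ?_
  have h1 : ContDiffAt ℝ ∞ (fun p => _root_.fderiv ℝ (fun p : ℝ × ℝ => f p.1 p.2) p (0, 1))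
      q := (ContDiffAt.fderiv_right hq.at (by simp)).clm_apply contDiffAt_const
  refine h1.congr_of_eventuallyEq ?_
  filter_upwards [hq.eventually] with p hp
  exact hp.pt_eq

theorem SA.continuousAt (h : SA f x t) :
    ContinuousAt (fun p : ℝ × ℝ => f p.1 p.2) (x, t) := h.at.continuousAt

/-- continuity on the slab of a function which is smooth there -/
theorem cont_of_sa {a b : ℝ} (hf : ∀ t ∈ Icc a b, ∀ x, SA f x t) :
    ContinuousOn (fun p : ℝ × ℝ => f p.1 p.2) (univ ×ˢ Icc a b) :=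
  fun p hp => (hf p.2 hp.2 p.1).continuousAt.continuousWithinAt

theorem SA.mulC {f g : ℝ → ℝ → ℂ} (hf : SA f x t) (hg : SA g x t) :
    SA (fun x t => f x t * g x t) x t := by
  filter_upwards [hf, hg] with p h1 h2
  exact h1.mul h2

theorem SA.conj {f : ℝ → ℝ → ℂ} (hf : SA f x t) : SA (fun x t => (starRingEnd ℂ) (f x t)) x t :=
  hf.mono fun p hp => (Complex.conjCLE.contDiff.contDiffAt).comp p hp

theorem SA.re {f : ℝ → ℝ → ℂ} (hf : SA f x t) : SA (fun x t => (f x t).re) x t :=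
  hf.mono fun p hp => (Complex.reCLM.contDiff.contDiffAt).comp p hp

theorem SA.im {f : ℝ → ℝ → ℂ} (hf : SA f x t) : SA (fun x t => (f x t).im) x t :=
  hf.mono fun p hp => (Complex.imCLM.contDiff.contDiffAt).comp p hp

theorem per_pt (hf : ∀ t x, f (x + 1) t = f x t) (t x : ℝ) : pt f (x + 1) t = pt f x t := by
  unfold pt
  congr 1
  funext s
  exact hf s x

end SA

/-- `c` is a smooth family of closed curves, immersed for `t ∈ [a, b]` -/
structure Ref (c : ℝ → ℝ → ℂ) (a b : ℝ) : Prop where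
  smooth : ContDiff ℝ ∞ (fun p : ℝ × ℝ => c p.1 p.2)
  closed : ∀ t x, c (x + 1) t = c x t
  immersed : ∀ t ∈ Icc a b, ∀ x, pu c x t ≠ 0

/-- tangential speed of the reference curve -/
noncomputable def rμ (c : ℝ → ℝ → ℂ) (x t : ℝ) : ℝ := (pt c x t * conj (fT c x t)).re

/-- normal speed of the reference curve -/
noncomputable def rν (c : ℝ → ℝ → ℂ) (x t : ℝ) : ℝ := (pt c x t * conj (fT c x t)).im

/-- minus the angular speed of the reference curve -/
noncomputable def rω (c : ℝ → ℝ → ℂ) (x t : ℝ) : ℝ :=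
  (Complex.I * pt (fT c) x t * conj (fT c x t)).re

namespace Ref

variable {c : ℝ → ℝ → ℂ} {a b : ℝ} (h : Ref c a b)
include h

theorem sa (x t : ℝ) : SA c x t := Filter.Eventually.of_forall fun _ => h.smooth.contDiffAt

variable {t : ℝ}

theorem v_pos (ht : t ∈ Icc a b) (x : ℝ) : 0 < fv c x t := norm_pos_iff.2 (h.immersed t ht x)

theorem im_ev (ht : t ∈ Icc a b) (x : ℝ) : ∀ᶠ p : ℝ × ℝ in 𝓝 (x, t), pu c p.1 p.2 ≠ 0 :=
  (h.sa x t).pu.continuousAt.eventually_ne (h.immersed t ht x)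

theorem sa_v (ht : t ∈ Icc a b) (x : ℝ) : SA (fv c) x t := by
  filter_upwards [h.im_ev ht x, (h.sa x t).pu] with p h1 h2
  exact ContDiffAt.norm ℝ h2 h1

theorem sa_T (ht : t ∈ Icc a b) (x : ℝ) : SA (fT c) x t := by
  filter_upwards [h.im_ev ht x, (h.sa x t).pu, h.sa_v ht x] with p h0 h1 h2
  have h3 : ContDiffAt ℝ ∞ (fun p : ℝ × ℝ => (fv c p.1 p.2)⁻¹ • pu c p.1 p.2) p :=
    (ContDiffAt.inv h2 (norm_pos_iff.2 h0).ne').smul h1
  refine h3.congr_of_eventuallyEq (Filter.Eventually.of_forall fun p => ?_)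
  show fT c p.1 p.2 = (fv c p.1 p.2)⁻¹ • pu c p.1 p.2
  unfold fT fv tang dsC
  rw [Complex.real_smul, Complex.ofReal_inv, div_eq_inv_mul]
  rfl

theorem sa_k (ht : t ∈ Icc a b) (x : ℝ) : SA (fk c) x t := by
  filter_upwards [h.im_ev ht x, (h.sa_T ht x).pu, h.sa_T ht x, h.sa_v ht x] with p h0 h1 h2 h3
  have h4 : ContDiffAt ℝ ∞ (fun p : ℝ × ℝ => (fv c p.1 p.2)⁻¹ • pu (fT c) p.1 p.2) p :=
    (ContDiffAt.inv h3 (norm_pos_iff.2 h0).ne').smul h1
  have h5 : ContDiffAt ℝ ∞ (fun p : ℝ × ℝ => Complex.I * fT c p.1 p.2) p :=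
    contDiffAt_const.mul h2
  refine (h4.inner ℝ h5).congr_of_eventuallyEq (Filter.Eventually.of_forall fun p => ?_)
  show fk c p.1 p.2 =
    ⟪(fv c p.1 p.2)⁻¹ • pu (fT c) p.1 p.2, Complex.I * fT c p.1 p.2⟫_ℝ
  unfold fk curv dsC nor
  rw [Complex.real_smul, Complex.ofReal_inv, ← div_eq_inv_mul]
  rfl

theorem sa_k1 (ht : t ∈ Icc a b) (x : ℝ) : SA (fk1 c) x t := by
  filter_upwards [h.im_ev ht x, (h.sa_k ht x).pu, h.sa_v ht x] with p h0 h1 h2
  exact ContDiffAt.div h1 h2 (norm_pos_iff.2 h0).ne'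

theorem sa_k2 (ht : t ∈ Icc a b) (x : ℝ) : SA (fk2 c) x t := by
  filter_upwards [h.im_ev ht x, (h.sa_k1 ht x).pu, h.sa_v ht x] with p h0 h1 h2
  exact ContDiffAt.div h1 h2 (norm_pos_iff.2 h0).ne'

theorem TT (ht : t ∈ Icc a b) (x : ℝ) : fT c x t * conj (fT c x t) = 1 :=
  tang_mul_conj (h.immersed t ht x)

theorem pu_c (ht : t ∈ Icc a b) (x : ℝ) : pu c x t = (fv c x t : ℂ) * fT c x t :=
  deriv_c (h.immersed t ht x)

theorem pu_T (ht : t ∈ Icc a b) (x : ℝ) :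
    pu (fT c) x t = ((fk c x t * fv c x t : ℝ) : ℂ) * (Complex.I * fT c x t) :=
  deriv_tang (Filter.Eventually.of_forall fun y => h.immersed t ht y)
    (h.sa_T ht x).hasDerivAt_x.differentiableAt

theorem pu_k (ht : t ∈ Icc a b) (x : ℝ) : pu (fk c) x t = fv c x t * fk1 c x t := by
  have h0 := (h.v_pos ht x).ne'
  have h1 : fk1 c x t = pu (fk c) x t / fv c x t := rfl
  rw [h1, mul_div_cancel₀ _ h0]

theorem pu_k1 (ht : t ∈ Icc a b) (x : ℝ) : pu (fk1 c) x t = fv c x t * fk2 c x t := by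
  have h0 := (h.v_pos ht x).ne'
  have h1 : fk2 c x t = pu (fk1 c) x t / fv c x t := rfl
  rw [h1, mul_div_cancel₀ _ h0]

/-- `c_t = (μ + i ν) τ` -/
theorem pt_c (ht : t ∈ Icc a b) (x : ℝ) :
    pt c x t = ((rμ c x t : ℂ) + rν c x t * Complex.I) * fT c x t := by
  have h1 : ((rμ c x t : ℂ) + rν c x t * Complex.I) = pt c x t * conj (fT c x t) := by
    unfold rμ rν
    exact Complex.re_add_im _
  rw [h1, mul_assoc, mul_comm (conj _), h.TT ht x, mul_one]

/-- `i τ_t = ω τ` -/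
theorem I_pt_T (ht : t ∈ Icc a b) (x : ℝ) :
    Complex.I * pt (fT c) x t = (rω c x t : ℂ) * fT c x t := by
  have hev : ∀ᶠ s in 𝓝 t, fT c x s * conj (fT c x s) = 1 := by
    have h1 : ContinuousAt (fun s : ℝ => pu c x s) t := by
      have h2 := (h.sa x t).pu.continuousAt
      have h3 : ContinuousAt (fun s : ℝ => ((x, s) : ℝ × ℝ)) t :=
        continuousAt_const.prodMk continuousAt_id
      exact ContinuousAt.comp (f := fun s : ℝ => ((x, s) : ℝ × ℝ)) h2 h3
    filter_upwards [h1.eventually_ne (h.immersed t ht x)] with s hs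
    exact tang_mul_conj hs
  have h2 := re_deriv_unit (h.sa_T ht x).hasDerivAt_t hev
  have h3 : (Complex.I * pt (fT c) x t * conj (fT c x t)).im = 0 := by
    rw [mul_assoc, Complex.I_mul_im]
    exact h2
  have h4 : ((rω c x t : ℝ) : ℂ) = Complex.I * pt (fT c) x t * conj (fT c x t) := by
    unfold rω
    apply Complex.ext
    · simp
    · rw [h3]; simp
  rw [h4, mul_assoc (Complex.I * _), mul_comm (conj _), h.TT ht x, mul_one]

/-! periodicity -/

theorem p_v (t x : ℝ) : fv c (x + 1) t = fv c x t := by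
  have h1 : pu c (x + 1) t = pu c x t := per_pu (h.closed t) x
  exact congrArg norm h1

theorem p_T (t x : ℝ) : fT c (x + 1) t = fT c x t := by
  have h1 : pu c (x + 1) t = pu c x t := per_pu (h.closed t) x
  have h2 := h.p_v t x
  have e : ∀ y, fT c y t = pu c y t / (fv c y t : ℂ) := fun _ => rfl
  rw [e, e, h1, h2]

theorem p_k (t x : ℝ) : fk c (x + 1) t = fk c x t := by
  have h1 : pu (fT c) (x + 1) t = pu (fT c) x t := per_pu (h.p_T t) x
  have e : ∀ y, fk c y t = ⟪pu (fT c) y t / (fv c y t : ℂ), Complex.I * fT c y t⟫_ℝ :=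
    fun _ => rfl
  rw [e, e, h1, h.p_v, h.p_T]

theorem p_μ (t x : ℝ) : rμ c (x + 1) t = rμ c x t := by
  unfold rμ
  rw [per_pt h.closed, h.p_T]

theorem p_ν (t x : ℝ) : rν c (x + 1) t = rν c x t := by
  unfold rν
  rw [per_pt h.closed, h.p_T]

theorem p_ω (t x : ℝ) : rω c (x + 1) t = rω c x t := by
  unfold rω
  rw [per_pt h.p_T, h.p_T]

/-! smoothness of `μ, ν, ω` -/

theorem sa_μ (ht : t ∈ Icc a b) (x : ℝ) : SA (rμ c) x t :=
  ((h.sa x t).pt.mulC (h.sa_T ht x).conj).re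

theorem sa_ν (ht : t ∈ Icc a b) (x : ℝ) : SA (rν c) x t :=
  ((h.sa x t).pt.mulC (h.sa_T ht x).conj).im

theorem sa_ω (ht : t ∈ Icc a b) (x : ℝ) : SA (rω c) x t := by
  have h1 : SA (fun x t => Complex.I * pt (fT c) x t) x t :=
    SA.mulC (f := fun _ _ => Complex.I) (Filter.Eventually.of_forall fun _ => contDiffAt_const)
      (h.sa_T ht x).pt
  exact (h1.mulC (h.sa_T ht x).conj).re

end Ref

end Pool.Agent.helper19.EM
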