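import Pool.Agent.helper19.EM.LiftODE
import Pool.Agent.helper19.EM.BL
import Pool.Agent.helper19.EM.Ref

/-!
# EM: the foot point and the normal displacement

`γ` is a free elastic flow, `c` a reference curve.  `x u t` is the foot point of `γ u t` and
`w u t` the signed normal displacement, `γ u t = c (x u t) t + w u t • i τ (x u t) t`.  They are
obtained from an ordinary differential equation in `t` (with cut-off).
-/

set_option autoImplicit false

open scoped Real ContDiff ComplexConjugate InnerProductSpace Topology NNReal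
open Set Pool.Agent.helper19.EL

namespace Pool.Agent.helper19.EM

/-- the cosine of the angle between `γ` at `u` and `c` at `x` -/
noncomputable def CC (γ c : ℝ → ℝ → ℂ) (u x t : ℝ) : ℝ := (fT γ u t * conj (fT c x t)).re

/-- the sine of the angle between `γ` at `u` and `c` at `x` -/
noncomputable def SS (γ c : ℝ → ℝ → ℂ) (u x t : ℝ) : ℝ := (fT γ u t * conj (fT c x t)).im

section bl

variable {γ c : ℝ → ℝ → ℂ} {T a b : ℝ}

theorem BL.of_sm {F : ℝ → ℝ → ℝ} (hF : Sm T F) (hsub : Icc a b ⊆ Ico 0 T)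
    (hp : ∀ t ∈ Ico 0 T, ∀ u, F (u + 1) t = F u t) : BL a b (fun t y => F y t) :=
  BL.of_der (F' := pu F) (fun t ht y => hF.hasDerivAt_u (hsub ht) y)
    (hF.continuousOn.mono (prod_mono subset_rfl hsub))
    (hF.pu.continuousOn.mono (prod_mono subset_rfl hsub))
    (fun t ht y => hp t (hsub ht) y) (fun t ht y => per_pu (hp t (hsub ht)) y)

theorem BL.of_sa {F : ℝ → ℝ → ℝ} (hF : ∀ t ∈ Icc a b, ∀ x, SA F x t)
    (hp : ∀ t x, F (x + 1) t = F x t) : BL a b (fun t y => F y t) :=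
  BL.of_der (F' := pu F) (fun t ht y => (hF t ht y).hasDerivAt_x) (cont_of_sa hF)
    (cont_of_sa fun t ht x => (hF t ht x).pu) (fun t _ y => hp t y)
    (fun t _ y => per_pu (hp t) y)

end bl

/-- the state `(u, x, w)` -/
abbrev St := ℝ × ℝ × ℝ

theorem lip_u (p q : St) : |p.1 - q.1| ≤ dist p q := by
  rw [← Real.dist_eq]; exact le_max_left _ _

theorem lip_x (p q : St) : |p.2.1 - q.2.1| ≤ dist p q := by
  rw [← Real.dist_eq]; exact (le_max_left _ _).trans (le_max_right _ _)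

theorem lip_w (p q : St) : |p.2.2 - q.2.2| ≤ dist p q := by
  rw [← Real.dist_eq]; exact (le_max_right _ _).trans (le_max_right _ _)

/-- the velocity of the foot point -/
noncomputable def g1 (γ c : ℝ → ℝ → ℂ) (ρ t : ℝ) (p : St) : ℝ :=
  (fF γ p.1 t * SS γ c p.1 p.2.1 t - rμ c p.2.1 t - clamp ρ p.2.2 * rω c p.2.1 t) *
    ((fv c p.2.1 t)⁻¹ * (1 - fk c p.2.1 t * clamp ρ p.2.2)⁻¹)

/-- the velocity of the displacement -/
noncomputable def g2 (γ c : ℝ → ℝ → ℂ) (t : ℝ) (p : St) : ℝ :=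
  -(fF γ p.1 t * CC γ c p.1 p.2.1 t) - rν c p.2.1 t

/-- the vector field -/
noncomputable def gg (γ c : ℝ → ℝ → ℂ) (ρ t : ℝ) (p : St) : St :=
  (0, g1 γ c ρ t p, g2 γ c t p)

section field

variable {γ c : ℝ → ℝ → ℂ} {T a b ρ : ℝ}

theorem bl_FC (h : IsFlow γ T) (hc : Ref c a b) (hsub : Icc a b ⊆ Ico 0 T) :
    BL a b (fun t (p : St) => fF γ p.1 t * CC γ c p.1 p.2.1 t) := by
  have s1 : Sm T (fun u t => fF γ u t * (fT γ u t).re) :=
    h.sm_F.mul (Complex.reCLM.contDiff.comp_contDiffOn h.sm_T)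
  have s2 : Sm T (fun u t => fF γ u t * (fT γ u t).im) :=
    h.sm_F.mul (Complex.imCLM.contDiff.comp_contDiffOn h.sm_T)
  have b1 := (BL.of_sm s1 hsub fun t ht u => by rw [h.p_F ht, h.p_T ht]).comp
    (X := St) (y := fun p => p.1) lip_u
  have b2 := (BL.of_sm s2 hsub fun t ht u => by rw [h.p_F ht, h.p_T ht]).comp
    (X := St) (y := fun p => p.1) lip_u
  have b3 := (BL.of_sa (fun t ht x => (hc.sa_T ht x).re) fun t x => by rw [hc.p_T]).comp
    (X := St) (y := fun p => p.2.1) lip_x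
  have b4 := (BL.of_sa (fun t ht x => (hc.sa_T ht x).im) fun t x => by rw [hc.p_T]).comp
    (X := St) (y := fun p => p.2.1) lip_x
  have b5 := (b1.mul b3).add (b2.mul b4)
  convert b5 using 4 with t p
  simp only [CC, Complex.mul_re, Complex.conj_re, Complex.conj_im]
  ring

theorem bl_FS (h : IsFlow γ T) (hc : Ref c a b) (hsub : Icc a b ⊆ Ico 0 T) :
    BL a b (fun t (p : St) => fF γ p.1 t * SS γ c p.1 p.2.1 t) := by
  have s1 : Sm T (fun u t => fF γ u t * (fT γ u t).re) :=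
    h.sm_F.mul (Complex.reCLM.contDiff.comp_contDiffOn h.sm_T)
  have s2 : Sm T (fun u t => fF γ u t * (fT γ u t).im) :=
    h.sm_F.mul (Complex.imCLM.contDiff.comp_contDiffOn h.sm_T)
  have b1 := (BL.of_sm s1 hsub fun t ht u => by rw [h.p_F ht, h.p_T ht]).comp
    (X := St) (y := fun p => p.1) lip_u
  have b2 := (BL.of_sm s2 hsub fun t ht u => by rw [h.p_F ht, h.p_T ht]).comp
    (X := St) (y := fun p => p.1) lip_u
  have b3 := (BL.of_sa (fun t ht x => (hc.sa_T ht x).re) fun t x => by rw [hc.p_T]).comp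
    (X := St) (y := fun p => p.2.1) lip_x
  have b4 := (BL.of_sa (fun t ht x => (hc.sa_T ht x).im) fun t x => by rw [hc.p_T]).comp
    (X := St) (y := fun p => p.2.1) lip_x
  have b5 := (b2.mul b3).sub (b1.mul b4)
  convert b5 using 4 with t p
  simp only [SS, Complex.mul_im, Complex.conj_re, Complex.conj_im]
  ring

theorem bl_g2 (h : IsFlow γ T) (hc : Ref c a b) (hsub : Icc a b ⊆ Ico 0 T) :
    BL a b (g2 γ c) := by
  have b1 := (BL.of_sa (fun t ht x => hc.sa_ν ht x) hc.p_ν).comp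
    (X := St) (y := fun p => p.2.1) lip_x
  exact (bl_FC h hc hsub).neg.sub b1

theorem bl_g1 (h : IsFlow γ T) (hc : Ref c a b) (hsub : Icc a b ⊆ Ico 0 T) (hρ : 0 ≤ ρ)
    (hk : ∀ t ∈ Icc a b, ∀ x, |fk c x t| * ρ ≤ 1 / 2) : BL a b (g1 γ c ρ) := by
  have b1 := (BL.of_sa (fun t ht x => hc.sa_μ ht x) hc.p_μ).comp
    (X := St) (y := fun p => p.2.1) lip_x
  have b2 := (BL.of_sa (fun t ht x => hc.sa_ω ht x) hc.p_ω).comp
    (X := St) (y := fun p => p.2.1) lip_x
  have b3 : BL a b (fun _ (p : St) => clamp ρ p.2.2) := BL.clamp hρ lip_w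
  have b4 := (BL.of_sa (fun t ht x => hc.sa_k ht x) hc.p_k).comp
    (X := St) (y := fun p => p.2.1) lip_x
  have b5 := (BL.of_sa (fun t ht x => hc.sa_v ht x) hc.p_v).comp
    (X := St) (y := fun p => p.2.1) lip_x
  obtain ⟨δ, hδ, h5⟩ := per_pos (cont_of_sa fun t ht x => hc.sa_v (t := t) ht x)
    (fun t _ x => hc.p_v t x) (fun t ht x => hc.v_pos ht x)
  have b6 := b5.inv hδ fun t ht p => h5 t ht p.2.1
  have b7 : BL a b (fun t (p : St) => 1 - fk c p.2.1 t * clamp ρ p.2.2) :=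
    (BL.const 1).sub (b4.mul b3)
  have b8 := b7.inv (δ := 1 / 2) (by norm_num) fun t ht p => by
    have h1 := hk t ht p.2.1
    have h2 := abs_clamp hρ p.2.2
    have h3 : |fk c p.2.1 t * clamp ρ p.2.2| ≤ 1 / 2 := by
      rw [abs_mul]
      exact (mul_le_mul_of_nonneg_left h2 (abs_nonneg _)).trans h1
    have := (abs_le.1 h3).2
    linarith
  exact (((bl_FS h hc hsub).sub b1).sub (b3.mul b2)).mul (b6.mul b8)

end field

end Pool.Agent.helper19.EM
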