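import Pool.Agent.helper19.EM.Lift

/-!
# EM: existence of the foot point and of the normal displacement
-/

set_option autoImplicit false

open scoped Real ContDiff ComplexConjugate InnerProductSpace Topology NNReal
open Set Pool.Agent.helper19.EL

namespace Pool.Agent.helper19.EM

/-- start data: `γ` at time `a` is a normal graph over `c` at time `a` -/
structure Start (γ c : ℝ → ℝ → ℂ) (a : ℝ) (xa wa : ℝ → ℝ) : Prop where
  cx : Continuous xa
  cw : Continuous wa
  px : ∀ u, xa (u + 1) = xa u + 1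
  pw : ∀ u, wa (u + 1) = wa u
  eq : ∀ u, γ u a = c (xa u) a + (wa u : ℂ) * (Complex.I * fT c (xa u) a)

/-- foot point and displacement on `[a, b]`; the equation `eq` holds as long as `|w| ≤ ρ` -/
structure Lift (γ c : ℝ → ℝ → ℂ) (a b ρ : ℝ) (x w : ℝ → ℝ → ℝ) : Prop where
  cx : ContinuousOn (fun p : ℝ × ℝ => x p.1 p.2) (univ ×ˢ Icc a b)
  cw : ContinuousOn (fun p : ℝ × ℝ => w p.1 p.2) (univ ×ˢ Icc a b)
  px : ∀ t ∈ Icc a b, ∀ u, x (u + 1) t = x u t + 1
  pw : ∀ t ∈ Icc a b, ∀ u, w (u + 1) t = w u t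
  dx : ∀ t ∈ Icc a b, ∀ u, HasDerivWithinAt (x u) (g1 γ c ρ t (u, x u t, w u t)) (Icc a b) t
  dw : ∀ t ∈ Icc a b, ∀ u, HasDerivWithinAt (w u)
    (-(fF γ u t * CC γ c u (x u t) t) - rν c (x u t) t) (Icc a b) t
  eq : ∀ u, ∀ t ∈ Icc a b, (∀ s ∈ Icc a t, |w u s| ≤ ρ) →
    γ u t = c (x u t) t + (w u t : ℂ) * (Complex.I * fT c (x u t) t)

section pr

variable {F G : Type} [NormedAddCommGroup F] [NormedSpace ℝ F] [NormedAddCommGroup G]
  [NormedSpace ℝ G] {f : ℝ → F × G} {f' : F × G} {s : Set ℝ} {t : ℝ}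

theorem dfst (h : HasDerivWithinAt f f' s t) : HasDerivWithinAt (fun r => (f r).1) f'.1 s t :=
  (hasFDerivAt_fst (𝕜 := ℝ) (p := f t)).comp_hasDerivWithinAt t h

theorem dsnd (h : HasDerivWithinAt f f' s t) : HasDerivWithinAt (fun r => (f r).2) f'.2 s t :=
  (hasFDerivAt_snd (𝕜 := ℝ) (p := f t)).comp_hasDerivWithinAt t h

end pr

/-- a function with vanishing derivative in the interior is constant -/
theorem const_of {f : ℝ → ℂ} {a t : ℝ} (hat : a ≤ t) (hc : ContinuousOn f (Icc a t))
    (hd : ∀ s ∈ Ioo a t, HasDerivAt f 0 s) : f t = f a := by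
  rcases hat.eq_or_lt with rfl | hlt
  · rfl
  have hre : ContinuousOn (fun s => (f s).re) (Icc a t) :=
    Complex.continuous_re.comp_continuousOn hc
  have him : ContinuousOn (fun s => (f s).im) (Icc a t) :=
    Complex.continuous_im.comp_continuousOn hc
  have h1 : ∀ s ∈ Ioo a t, HasDerivAt (fun s => (f s).re) 0 s := fun s hs => by
    have := Complex.reCLM.hasFDerivAt.comp_hasDerivAt s (hd s hs)
    rw [map_zero] at this
    exact this
  have h2 : ∀ s ∈ Ioo a t, HasDerivAt (fun s => (f s).im) 0 s := fun s hs => by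
    have := Complex.imCLM.hasFDerivAt.comp_hasDerivAt s (hd s hs)
    rw [map_zero] at this
    exact this
  obtain ⟨r, _, hr⟩ := exists_hasDerivAt_eq_slope _ _ hlt hre h1
  obtain ⟨r', _, hr'⟩ := exists_hasDerivAt_eq_slope _ _ hlt him h2
  have h0 : t - a ≠ 0 := (sub_pos.2 hlt).ne'
  have e1 : (f t).re - (f a).re = 0 := by
    field_simp at hr
    linarith
  have e2 : (f t).im - (f a).im = 0 := by
    field_simp at hr'
    linarith
  exact Complex.ext (by linarith) (by linarith)

section

variable {γ c : ℝ → ℝ → ℂ} {T a b ρ : ℝ} {xa wa : ℝ → ℝ}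

/-- the field is periodic -/
theorem gg_per (h : IsFlow γ T) (hc : Ref c a b) {t : ℝ} (ht : t ∈ Ico 0 T) (u x w : ℝ) :
    gg γ c ρ t (u + 1, x + 1, w) = gg γ c ρ t (u, x, w) := by
  unfold gg g1 g2 CC SS
  simp only [h.p_F ht, h.p_T ht, hc.p_T, hc.p_μ, hc.p_ν, hc.p_ω, hc.p_v, hc.p_k]

/-- **Existence of the lift.** -/
theorem lift_exists (h : IsFlow γ T) (hc : Ref c a b) (h0 : 0 ≤ a) (hab : a ≤ b) (hbT : b < T)
    (hρ : 0 ≤ ρ) (hk : ∀ t ∈ Icc a b, ∀ x, |fk c x t| * ρ ≤ 1 / 2)
    (hs : Start γ c a xa wa) :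
    ∃ x w : ℝ → ℝ → ℝ, Lift γ c a b ρ x w ∧ (∀ u, x u a = xa u) ∧ ∀ u, w u a = wa u := by
  have hsub : Icc a b ⊆ Ico 0 T := fun t ht => ⟨h0.trans ht.1, ht.2.trans_lt hbT⟩
  have B1 := bl_g1 h hc hsub hρ hk
  have B2 := bl_g2 h hc hsub
  obtain ⟨L1, hL1, H1⟩ := B1.ex
  obtain ⟨L2, hL2, H2⟩ := B2.ex
  obtain ⟨φ, φ0, φd, φc, φu⟩ := flow_exists (f := gg γ c ρ) hab
    (K := ⟨max L1 L2, le_max_of_le_left hL1⟩) (L := ⟨max L1 L2, le_max_of_le_left hL1⟩)
    (fun t ht => LipschitzWith.of_dist_le_mul fun p q => by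
      have d0 : (0 : ℝ) ≤ dist p q := dist_nonneg
      have e1 : dist (gg γ c ρ t p) (gg γ c ρ t q) =
          max (dist (0 : ℝ) 0) (max (dist (g1 γ c ρ t p) (g1 γ c ρ t q))
            (dist (g2 γ c t p) (g2 γ c t q))) := rfl
      rw [e1]
      refine max_le ?_ (max_le ?_ ?_)
      · rw [dist_self]
        exact mul_nonneg (le_max_of_le_left hL1) d0
      · rw [Real.dist_eq]
        exact ((H1 t ht).2 p q).trans (mul_le_mul_of_nonneg_right (le_max_left _ _) d0)
      · rw [Real.dist_eq]
        exact ((H2 t ht).2 p q).trans (mul_le_mul_of_nonneg_right (le_max_right _ _) d0))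
    (fun p => continuousOn_const.prodMk ((B1.cont p).prodMk (B2.cont p)))
    (fun t ht p => by
      have e1 : ‖gg γ c ρ t p‖ = max ‖(0 : ℝ)‖ (max ‖g1 γ c ρ t p‖ ‖g2 γ c t p‖) := rfl
      rw [e1]
      refine max_le ?_ (max_le ?_ ?_)
      · rw [norm_zero]
        exact le_max_of_le_left hL1
      · exact ((H1 t ht).1 p).trans (le_max_left _ _)
      · exact ((H2 t ht).1 p).trans (le_max_right _ _))
  -- the solution
  set Z : ℝ → ℝ → St := fun u t => φ (u, xa u, wa u) t with hZ
  have Zd : ∀ u, ∀ t ∈ Icc a b, HasDerivWithinAt (Z u) (gg γ c ρ t (Z u t)) (Icc a b) t :=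
    fun u t ht => φd _ t ht
  have Zc : ContinuousOn (fun p : ℝ × ℝ => Z p.1 p.2) (univ ×ˢ Icc a b) := by
    have h1 : ContinuousOn (fun p : ℝ × ℝ => (((p.1, xa p.1, wa p.1), p.2) : St × ℝ))
        (univ ×ˢ Icc a b) :=
      ((continuous_fst.prodMk ((hs.cx.comp continuous_fst).prodMk
        (hs.cw.comp continuous_fst))).prodMk continuous_snd).continuousOn
    exact φc.comp h1 fun p hp => ⟨mem_univ _, hp.2⟩
  have Z1 : ∀ u, ∀ t ∈ Icc a b, (Z u t).1 = u := by
    intro u t ht
    have h1 : ∀ s ∈ Icc a b, HasDerivWithinAt (fun s => (Z u s).1) 0 (Icc a b) s :=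
      fun s hs => dfst (Zd u s hs)
    have h2 := constant_of_derivWithin_zero (f := fun s => (Z u s).1) (a := a) (b := b)
      (fun s hs => (h1 s hs).differentiableWithinAt)
      (fun s hs => (h1 s (Ico_subset_Icc_self hs)).derivWithin
        (uniqueDiffOn_Icc (hs.1.trans_lt hs.2) s (Ico_subset_Icc_self hs))) t ht
    rw [h2]
    show (φ (u, xa u, wa u) a).1 = u
    rw [φ0]
  have Za : ∀ u, Z u a = (u, xa u, wa u) := fun u => φ0 _
  have Zp : ∀ u, ∀ t ∈ Icc a b, Z (u + 1) t = ((Z u t).1 + 1, (Z u t).2.1 + 1, (Z u t).2.2) := by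
    intro u t ht
    refine (φu (u + 1, xa (u + 1), wa (u + 1))
      (fun t => ((Z u t).1 + 1, (Z u t).2.1 + 1, (Z u t).2.2)) ?_ ?_ t ht).symm
    · simp only [Za, hs.px, hs.pw]
    · intro s hs'
      have h1 := Zd u s hs'
      have h2 := ((dfst h1).add_const 1).prodMk
        (((dfst (dsnd h1)).add_const 1).prodMk (dsnd (dsnd h1)))
      rw [gg_per h hc (hsub hs')]
      exact h2
  refine ⟨fun u t => (Z u t).2.1, fun u t => (Z u t).2.2, ?_, fun u => ?_, fun u => ?_⟩
  · refine ⟨?_, ?_, ?_, ?_, ?_, ?_, ?_⟩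
    · exact continuous_fst.comp_continuousOn (continuous_snd.comp_continuousOn Zc)
    · exact continuous_snd.comp_continuousOn (continuous_snd.comp_continuousOn Zc)
    · intro t ht u
      simp only [Zp u t ht]
    · intro t ht u
      simp only [Zp u t ht]
    · intro t ht u
      have h1 := dfst (dsnd (Zd u t ht))
      have e : (gg γ c ρ t (Z u t)).2.1 = g1 γ c ρ t (u, (Z u t).2.1, (Z u t).2.2) := by
        show g1 γ c ρ t (Z u t) = _
        unfold g1
        rw [Z1 u t ht]
      rw [← e]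
      exact h1
    · intro t ht u
      have h1 := dsnd (dsnd (Zd u t ht))
      have e : (gg γ c ρ t (Z u t)).2.2 =
          -(fF γ u t * CC γ c u (Z u t).2.1 t) - rν c (Z u t).2.1 t := by
        show g2 γ c t (Z u t) = _
        unfold g2
        rw [Z1 u t ht]
      rw [← e]
      exact h1
    · intro u t ht hw
      -- the defect
      set D : ℝ → ℂ := fun s => γ u s - (c (Z u s).2.1 s +
        ((Z u s).2.2 : ℂ) * (Complex.I * fT c (Z u s).2.1 s)) with hD
      have hsub2 : Icc a t ⊆ Icc a b := Icc_subset_Icc_right ht.2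
      have cX : ContinuousOn (fun s => (Z u s).2.1) (Icc a b) := fun s hs =>
        (dfst (dsnd (Zd u s hs))).continuousWithinAt
      have cW : ContinuousOn (fun s => (Z u s).2.2) (Icc a b) := fun s hs =>
        (dsnd (dsnd (Zd u s hs))).continuousWithinAt
      have cf : ∀ {f : ℝ → ℝ → ℂ}, (∀ s ∈ Icc a b, ∀ x, SA f x s) →
          ContinuousOn (fun s => f (Z u s).2.1 s) (Icc a b) := by
        intro f hf s hs
        have h1 : ContinuousWithinAt (fun s => (((Z u s).2.1, s) : ℝ × ℝ)) (Icc a b) s :=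
          (cX s hs).prodMk continuousWithinAt_id
        exact (hf s hs _).continuousAt.comp_continuousWithinAt
          (f := fun s => (((Z u s).2.1, s) : ℝ × ℝ)) h1
      have cD : ContinuousOn D (Icc a t) := by
        refine ContinuousOn.mono (ContinuousOn.sub ?_ (ContinuousOn.add ?_ ?_)) hsub2
        · intro s hs
          have h1 := h.sm.continuousOn (u, s) ⟨mem_univ _, hsub hs⟩
          have h2 : ContinuousWithinAt (fun s => ((u, s) : ℝ × ℝ)) (Icc a b) s :=
            (continuous_const.prodMk continuous_id).continuousWithinAt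
          exact h1.comp h2 fun s hs => ⟨mem_univ _, hsub hs⟩
        · exact cf fun s _ x => hc.sa x s
        · exact (Complex.continuous_ofReal.comp_continuousOn cW).mul
            (continuousOn_const.mul (cf fun s hs x => hc.sa_T hs x))
      have hfin : D t = D a := by
        refine const_of ht.1 cD fun s hs => ?_
        have hsb : s ∈ Icc a b := ⟨hs.1.le, hs.2.le.trans ht.2⟩
        have hs0 : s ∈ Ioo 0 T := ⟨h0.trans_lt hs.1, (hsub hsb).2⟩
        have hnb : Icc a b ∈ 𝓝 s := Icc_mem_nhds hs.1 (hs.2.trans_le ht.2)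
        set X : ℝ := (Z u s).2.1 with hX
        set W : ℝ := (Z u s).2.2 with hW
        have dX : HasDerivWithinAt (fun s => (Z u s).2.1) (gg γ c ρ s (Z u s)).2.1 univ s :=
          dfst (dsnd ((Zd u s hsb).hasDerivAt hnb).hasDerivWithinAt)
        have dW : HasDerivAt (fun s => (Z u s).2.2) (gg γ c ρ s (Z u s)).2.2 s :=
          (dsnd (dsnd (Zd u s hsb))).hasDerivAt hnb
        set X' : ℝ := (gg γ c ρ s (Z u s)).2.1 with hX'
        set W' : ℝ := (gg γ c ρ s (Z u s)).2.2 with hW'
        have dγ := h.sm.hasDerivAt_t hs0 u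
        have dc := ((hc.sa X s).path (X := fun s => (Z u s).2.1) dX).hasDerivAt
          Filter.univ_mem
        have dτ := ((hc.sa_T hsb X).path (X := fun s => (Z u s).2.1) dX).hasDerivAt
          Filter.univ_mem
        have dD := dγ.sub (dc.add (dW.ofReal_comp.mul (dτ.const_mul Complex.I)))
        refine dD.congr_deriv ?_
        show pt γ u s - ((X' • pu c X s + pt c X s) + ((W' : ℂ) * (Complex.I * fT c X s) +
          (W : ℂ) * (Complex.I * (X' • pu (fT c) X s + pt (fT c) X s)))) = 0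
        have hWρ : |W| ≤ ρ := hw s ⟨hs.1.le, hs.2.le⟩
        have v0 := (hc.v_pos hsb X).ne'
        have hm : 1 - fk c X s * W ≠ 0 := by
          have h1 := hk s hsb X
          have h3 : |fk c X s * W| ≤ 1 / 2 := by
            rw [abs_mul]
            exact (mul_le_mul_of_nonneg_left hWρ (abs_nonneg _)).trans h1
          have := (abs_le.1 h3).2
          have : 0 < 1 - fk c X s * W := by linarith
          exact this.ne'
        have eX : X' * (fv c X s * (1 - fk c X s * W)) =
            fF γ u s * SS γ c u X s - rμ c X s - W * rω c X s := by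
          have : X' = (fF γ u s * SS γ c u X s - rμ c X s - W * rω c X s) *
              ((fv c X s)⁻¹ * (1 - fk c X s * W)⁻¹) := by
            show g1 γ c ρ s (Z u s) = _
            unfold g1
            rw [Z1 u s hsb, clamp_of hWρ]
          rw [this, mul_assoc, mul_mul_mul_comm, inv_mul_cancel₀ v0, inv_mul_cancel₀ hm, mul_one,
            mul_one]
        have eW : W' = -(fF γ u s * CC γ c u X s) - rν c X s := by
          show g2 γ c s (Z u s) = _
          unfold g2
          rw [Z1 u s hsb]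
        have eT : fT γ u s = ((CC γ c u X s : ℂ) + SS γ c u X s * Complex.I) * fT c X s := by
          have h1 : (CC γ c u X s : ℂ) + SS γ c u X s * Complex.I =
              fT γ u s * conj (fT c X s) := by
            unfold CC SS
            exact Complex.re_add_im _
          rw [h1, mul_assoc, mul_comm (conj _), hc.TT hsb X, mul_one]
        rw [h.pt_γ hs0, hc.pu_c hsb, hc.pt_c hsb, hc.pu_T hsb, Complex.real_smul,
          Complex.real_smul, eT, eW]
        have eI := hc.I_pt_T hsb X
        have eX' : (X' : ℂ) * (fv c X s * (1 - fk c X s * W)) =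
            fF γ u s * SS γ c u X s - rμ c X s - W * rω c X s := by
          exact_mod_cast congrArg (fun r : ℝ => (r : ℂ)) eX
        push_cast
        linear_combination (-fT c X s) * eX' - (W : ℂ) * eI +
          (fT c X s * (fF γ u s * SS γ c u X s) * (-1) +
            X' * W * fk c X s * fv c X s * (-1) * fT c X s * 1) *
            (Complex.I_sq) 
      have hDa : D a = 0 := by
        rw [hD]
        simp only [Za]
        rw [hs.eq u]
        ring
      rw [hDa, hD] at hfin
      exact sub_eq_zero.1 hfin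
  · simp only [Za]
  · simp only [Za]

end

end Pool.Agent.helper19.EM
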