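import Mathlib

/-!
# EM: the global flow of a bounded Lipschitz time dependent vector field
-/

set_option autoImplicit false

open Set Metric
open scoped NNReal Topology

namespace Pool.Agent.helper19.EM

variable {E : Type*} [NormedAddCommGroup E] [NormedSpace ℝ E] [CompleteSpace E]

omit [CompleteSpace E] in
theorem right_of_icc {g : ℝ → E} {g' : E} {a b t : ℝ} (ht : t ∈ Ico a b)
    (h : HasDerivWithinAt g g' (Icc a b) t) : HasDerivWithinAt g g' (Ici t) t :=
  h.mono_of_mem_nhdsWithin (Icc_mem_nhdsGE_of_mem ht)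

/-- The global flow of a bounded Lipschitz time dependent vector field. -/
theorem flow_exists {f : ℝ → E → E} {a b : ℝ} (hab : a ≤ b) {K L : ℝ≥0}
    (hlip : ∀ t ∈ Icc a b, LipschitzWith K (f t))
    (hc : ∀ p, ContinuousOn (fun t => f t p) (Icc a b))
    (hb : ∀ t ∈ Icc a b, ∀ p, ‖f t p‖ ≤ L) :
    ∃ φ : E → ℝ → E, (∀ p, φ p a = p) ∧
      (∀ p, ∀ t ∈ Icc a b, HasDerivWithinAt (φ p) (f t (φ p t)) (Icc a b) t) ∧
      ContinuousOn (fun q : E × ℝ => φ q.1 q.2) (univ ×ˢ Icc a b) ∧
      ∀ p (g : ℝ → E), g a = p →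
        (∀ t ∈ Icc a b, HasDerivWithinAt g (f t (g t)) (Icc a b) t) →
        ∀ t ∈ Icc a b, g t = φ p t := by
  have key : ∀ p : E, ∃ α : ℝ → E, α a = p ∧
      ∀ t ∈ Icc a b, HasDerivWithinAt α (f t (α t)) (Icc a b) t := by
    intro p
    have h : IsPicardLindelof f (tmin := a) (tmax := b) ⟨a, left_mem_Icc.2 hab⟩ p
        (L * ⟨b - a, sub_nonneg.2 hab⟩) 0 L K :=
      { lipschitzOnWith := fun t ht => (hlip t ht).lipschitzOnWith
        continuousOn := fun x _ => hc x
        norm_le := fun t ht x _ => hb t ht x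
        mul_max_le := by
          simp only [sub_self, NNReal.coe_mul, NNReal.coe_zero, sub_zero]
          rw [max_eq_left (sub_nonneg.2 hab)]
          exact le_rfl }
    exact h.exists_eq_forall_mem_Icc_hasDerivWithinAt₀
  choose φ h1 h2 using key
  have hlip' : ∀ t ∈ Ico a b, LipschitzOnWith K (f t) ((fun _ => univ : ℝ → Set E) t) :=
    fun t ht => (hlip t (Ico_subset_Icc_self ht)).lipschitzOnWith
  have hcont : ∀ p, ContinuousOn (φ p) (Icc a b) := fun p t ht =>
    (h2 p t ht).continuousWithinAt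
  have hdist : ∀ p q, ∀ t ∈ Icc a b, dist (φ p t) (φ q t) ≤
      dist p q * Real.exp (K * (t - a)) := by
    intro p q
    refine dist_le_of_trajectories_ODE_of_mem hlip' (hcont p)
      (fun t ht => right_of_icc ht (h2 p t (Ico_subset_Icc_self ht))) (fun _ _ => trivial)
      (hcont q) (fun t ht => right_of_icc ht (h2 q t (Ico_subset_Icc_self ht)))
      (fun _ _ => trivial) ?_
    rw [h1, h1]
  refine ⟨φ, h1, h2, ?_, ?_⟩
  · apply continuousOn_prod_of_continuousOn_lipschitzOnWith _
      (⟨Real.exp (K * (b - a)), (Real.exp_pos _).le⟩ : ℝ≥0)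
    · intro p _
      exact hcont p
    · intro t ht
      refine LipschitzOnWith.of_dist_le_mul fun p _ q _ => ?_
      refine (hdist p q t ht).trans ?_
      rw [mul_comm]
      refine mul_le_mul_of_nonneg_right ?_ dist_nonneg
      show Real.exp (K * (t - a)) ≤ Real.exp (K * (b - a))
      have : (K : ℝ) * (t - a) ≤ K * (b - a) :=
        mul_le_mul_of_nonneg_left (by linarith [ht.2]) K.2
      exact Real.exp_le_exp.2 this
  · intro p g hg hg'
    have := ODE_solution_unique_of_mem_Icc_right hlip'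
      (fun t ht => (hg' t ht).continuousWithinAt)
      (fun t ht => right_of_icc ht (hg' t (Ico_subset_Icc_self ht))) (fun _ _ => trivial)
      (hcont p) (fun t ht => right_of_icc ht (h2 p t (Ico_subset_Icc_self ht)))
      (fun _ _ => trivial) (by rw [hg, h1])
    exact fun t ht => this ht

end Pool.Agent.helper19.EM
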