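import Pool.Agent.helper19.EM.LiftEx

/-!
# EM: identities along the curve at a fixed time

`graph_deriv` : if `γ u t = c (x u) t + w u • i τ` with `x`, `w` continuous and `1 - k w ≠ 0`, then
`x' = v C / (q (1 - k w))`, `w' = v S`; further `S' = v ψ C`, `C' = - v ψ S` with
`ψ = K - k C / (1 - k w)`.
-/

set_option autoImplicit false

open scoped Real ContDiff ComplexConjugate InnerProductSpace Topology NNReal
open Set Pool.Agent.helper19.EL

namespace Pool.Agent.helper19.EM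

section equiv

variable {τ : ℂ} {α : ℝ}

/-- the linear map `(y, z) ↦ y α τ + z i τ` -/
noncomputable def linA (α : ℝ) (τ : ℂ) : ℝ × ℝ →L[ℝ] ℂ :=
  (ContinuousLinearMap.fst ℝ ℝ ℝ).smulRight ((α : ℂ) * τ) +
    (ContinuousLinearMap.snd ℝ ℝ ℝ).smulRight (Complex.I * τ)

/-- its inverse -/
noncomputable def linB (α : ℝ) (τ : ℂ) : ℂ →L[ℝ] ℝ × ℝ :=
  (α⁻¹ • Complex.reCLM.comp (ContinuousLinearMap.mul ℝ ℂ (conj τ))).prod
    (Complex.imCLM.comp (ContinuousLinearMap.mul ℝ ℂ (conj τ)))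

theorem linA_apply (p : ℝ × ℝ) :
    linA α τ p = (p.1 : ℂ) * ((α : ℂ) * τ) + (p.2 : ℂ) * (Complex.I * τ) := by
  simp [linA]

theorem linB_apply (z : ℂ) : linB α τ z = (α⁻¹ * (conj τ * z).re, (conj τ * z).im) := by
  simp [linB]

/-- the linear equivalence -/
noncomputable def linE (hα : α ≠ 0) (hτ : τ * conj τ = 1) : (ℝ × ℝ) ≃L[ℝ] ℂ :=
  ContinuousLinearEquiv.equivOfInverse (linA α τ) (linB α τ)
    (by
      intro p
      rw [linB_apply, linA_apply]
      have e : conj τ * ((p.1 : ℂ) * ((α : ℂ) * τ) + (p.2 : ℂ) * (Complex.I * τ)) =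
          ((p.1 * α : ℝ) : ℂ) + ((p.2 : ℝ) : ℂ) * Complex.I := by
        push_cast
        linear_combination ((p.1 : ℂ) * α + p.2 * Complex.I) * hτ
      rw [e]
      ext
      · simp
        field_simp
      · simp)
    (by
      intro z
      rw [linA_apply, linB_apply]
      have e1 : conj τ * z = (((conj τ * z).re : ℝ) : ℂ) + ((conj τ * z).im : ℝ) * Complex.I :=
        (Complex.re_add_im _).symm
      have e2 : z = τ * (conj τ * z) := by
        linear_combination (-z) * hτ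
      have hα' : (α : ℂ) ≠ 0 := by exact_mod_cast hα
      conv_rhs => rw [e2, e1]
      push_cast
      field_simp)

end equiv

section graph

variable {γ c : ℝ → ℝ → ℂ} {T a b : ℝ} {t : ℝ} {x w : ℝ → ℝ}

/-- the strict derivative of `(y, z) ↦ c y t + z i τ(y, t)` -/
theorem strict_param (hc : Ref c a b) (ht : t ∈ Icc a b) (y z : ℝ) :
    HasStrictFDerivAt (fun p : ℝ × ℝ => c p.1 t + (p.2 : ℂ) * (Complex.I * fT c p.1 t))
      (linA (fv c y t * (1 - fk c y t * z)) (fT c y t)) (y, z) := by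
  have i1 : ContDiffAt ℝ ∞ (fun p : ℝ × ℝ => ((p.1, t) : ℝ × ℝ)) (y, z) :=
    contDiffAt_fst.prodMk contDiffAt_const
  have h1 : ContDiffAt ℝ ∞ (fun p : ℝ × ℝ => c p.1 t) (y, z) :=
    ContDiffAt.comp (g := fun p : ℝ × ℝ => c p.1 p.2) (f := fun p : ℝ × ℝ => ((p.1, t) : ℝ × ℝ))
      (y, z) (hc.sa y t).at i1
  have h2 : ContDiffAt ℝ ∞ (fun p : ℝ × ℝ => fT c p.1 t) (y, z) :=
    ContDiffAt.comp (g := fun p : ℝ × ℝ => fT c p.1 p.2)
      (f := fun p : ℝ × ℝ => ((p.1, t) : ℝ × ℝ)) (y, z) (hc.sa_T ht y).at i1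
  have h3 : ContDiffAt ℝ ∞ (fun p : ℝ × ℝ => ((p.2 : ℝ) : ℂ)) (y, z) :=
    (Complex.ofRealCLM.contDiff.contDiffAt).comp (y, z) contDiffAt_snd
  have h4 : ContDiffAt ℝ ∞
      (fun p : ℝ × ℝ => c p.1 t + (p.2 : ℂ) * (Complex.I * fT c p.1 t)) (y, z) :=
    h1.add (h3.mul (contDiffAt_const.mul h2))
  have h5 := h4.hasStrictFDerivAt (by simp)
  have h6 := h5.hasFDerivAt
  set D := fderiv ℝ (fun p : ℝ × ℝ => c p.1 t + (p.2 : ℂ) * (Complex.I * fT c p.1 t)) (y, z)
    with hD
  have e1 : D (1, 0) = ((fv c y t * (1 - fk c y t * z) : ℝ) : ℂ) * fT c y t := by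
    have d1 : HasDerivAt (fun r : ℝ => ((r, z) : ℝ × ℝ)) (1, 0) y :=
      (hasDerivAt_id y).prodMk (hasDerivAt_const y z)
    have d2 := HasFDerivAt.comp_hasDerivAt y h6 d1
    have d3 : HasDerivAt (fun r : ℝ => c r t + (z : ℂ) * (Complex.I * fT c r t))
        (pu c y t + (z : ℂ) * (Complex.I * pu (fT c) y t)) y :=
      (hc.sa y t).hasDerivAt_x.add
        (((hc.sa_T ht y).hasDerivAt_x.const_mul Complex.I).const_mul (z : ℂ))
    have d4 := d2.unique d3
    rw [d4, hc.pu_c ht, hc.pu_T ht]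
    push_cast
    linear_combination ((z : ℂ) * fk c y t * fv c y t * fT c y t) * Complex.I_sq
  have e2 : D (0, 1) = Complex.I * fT c y t := by
    have d1 : HasDerivAt (fun r : ℝ => ((y, r) : ℝ × ℝ)) (0, 1) z :=
      (hasDerivAt_const z y).prodMk (hasDerivAt_id z)
    have d2 := HasFDerivAt.comp_hasDerivAt z h6 d1
    have d3 : HasDerivAt (fun r : ℝ => c y t + (r : ℂ) * (Complex.I * fT c y t))
        (((1 : ℝ) : ℂ) * (Complex.I * fT c y t)) z :=
      (((hasDerivAt_id z).ofReal_comp).mul_const _).const_add _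
    have d4 := d2.unique d3
    rw [d4]
    simp
  have e3 : linA (fv c y t * (1 - fk c y t * z)) (fT c y t) = D := by
    refine ContinuousLinearMap.ext fun p => ?_
    have e4 : p = p.1 • ((1, 0) : ℝ × ℝ) + p.2 • ((0, 1) : ℝ × ℝ) := by
      ext <;> simp
    conv_rhs => rw [e4, map_add, map_smul, map_smul, e1, e2]
    rw [linA_apply, Complex.real_smul, Complex.real_smul]
  rw [e3]
  exact h5

/-- **The derivatives of foot point and displacement along the curve.** -/
theorem graph_deriv (h : IsFlow γ T) (hc : Ref c a b) (ht : t ∈ Icc a b) (htT : t ∈ Ico 0 T)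
    (hx : Continuous x) (hw : Continuous w)
    (he : ∀ u, γ u t = c (x u) t + (w u : ℂ) * (Complex.I * fT c (x u) t)) (u : ℝ)
    (hm : 1 - fk c (x u) t * w u ≠ 0) :
    HasDerivAt x (fv γ u t * (CC γ c u (x u) t * (1 - fk c (x u) t * w u)⁻¹) *
      (fv c (x u) t)⁻¹) u ∧ HasDerivAt w (fv γ u t * SS γ c u (x u) t) u := by
  have hα : fv c (x u) t * (1 - fk c (x u) t * w u) ≠ 0 := mul_ne_zero (hc.v_pos ht _).ne' hm
  have h1 : HasStrictFDerivAt
      (fun p : ℝ × ℝ => c p.1 t + (p.2 : ℂ) * (Complex.I * fT c p.1 t))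
      ((linE hα (hc.TT ht (x u)) : (ℝ × ℝ) ≃L[ℝ] ℂ) : ℝ × ℝ →L[ℝ] ℂ) (x u, w u) :=
    strict_param hc ht (x u) (w u)
  have h2 := h1.to_localInverse
  have h3 := h1.eventually_left_inverse
  have hcont : ContinuousAt (fun r => ((x r, w r) : ℝ × ℝ)) u :=
    (hx.continuousAt).prodMk hw.continuousAt
  have h4 : ∀ᶠ r in 𝓝 u, h1.localInverse _ _ _ (γ r t) = (x r, w r) := by
    filter_upwards [hcont.eventually h3] with r hr
    rw [he r]
    exact hr
  have h5 : HasDerivAt (fun r => γ r t) (pu γ u t) u := h.sm.hasDerivAt_u htT u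
  have h6 : HasFDerivAt (h1.localInverse _ _ _)
      ((linE hα (hc.TT ht (x u))).symm : ℂ →L[ℝ] ℝ × ℝ) (γ u t) := by
    rw [he u]
    exact h2.hasFDerivAt
  have h7 := HasFDerivAt.comp_hasDerivAt u h6 h5
  have h8 : HasDerivAt (fun r => ((x r, w r) : ℝ × ℝ))
      ((linE hα (hc.TT ht (x u))).symm (pu γ u t)) u :=
    h7.congr_of_eventuallyEq (h4.mono fun r hr => hr.symm)
  have h9 : (linE hα (hc.TT ht (x u))).symm (pu γ u t) =
      (fv γ u t * (CC γ c u (x u) t * (1 - fk c (x u) t * w u)⁻¹) * (fv c (x u) t)⁻¹,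
        fv γ u t * SS γ c u (x u) t) := by
    show linB _ _ _ = _
    rw [linB_apply, h.pu_γ htT]
    have e : conj (fT c (x u) t) * ((fv γ u t : ℂ) * fT γ u t) =
        (fv γ u t : ℂ) * (fT γ u t * conj (fT c (x u) t)) := by ring
    rw [e, Complex.re_ofReal_mul, Complex.im_ofReal_mul]
    unfold CC SS
    rw [mul_inv]
    ext
    · simp only
      ring
    · simp only
  rw [h9] at h8
  exact ⟨h8.fst, h8.snd⟩

/-- `C² + S² = 1` -/
theorem CC_sq_add (h : IsFlow γ T) (hc : Ref c a b) (ht : t ∈ Icc a b) (htT : t ∈ Ico 0 T)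
    (u y : ℝ) : CC γ c u y t ^ 2 + SS γ c u y t ^ 2 = 1 := by
  have h1 : ‖fT γ u t * conj (fT c y t)‖ = 1 := by
    have n1 : ‖fT γ u t‖ = 1 := norm_tang (h.ne htT u)
    have n2 : ‖fT c y t‖ = 1 := norm_tang (hc.immersed t ht y)
    rw [norm_mul, RCLike.norm_conj, n1, n2, one_mul]
  have h2 : Complex.normSq (fT γ u t * conj (fT c y t)) = 1 := by
    rw [Complex.normSq_eq_norm_sq, h1, one_pow]
  rw [Complex.normSq_apply] at h2
  unfold CC SS
  linarith

/-- **The derivatives of the angle along the curve**: with `x' = X'`,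
`(C + i S)' = i (K v - k q X') (C + i S)`. -/
theorem angle_deriv (h : IsFlow γ T) (hc : Ref c a b) (ht : t ∈ Icc a b) (htT : t ∈ Ico 0 T)
    {X' u : ℝ} (hx : HasDerivAt x X' u) :
    HasDerivAt (fun u => CC γ c u (x u) t)
      (-((fk γ u t * fv γ u t - fk c (x u) t * (fv c (x u) t * X')) * SS γ c u (x u) t)) u ∧
    HasDerivAt (fun u => SS γ c u (x u) t)
      ((fk γ u t * fv γ u t - fk c (x u) t * (fv c (x u) t * X')) * CC γ c u (x u) t) u := by
  have d1 := h.sm_T.hasDerivAt_u htT u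
  have d2 := (hc.sa_T ht (x u)).slice hx
  have d3 : HasDerivAt (fun r => conj (fT c (x r) t)) (conj (X' • pu (fT c) (x u) t)) u :=
    d2.star
  have d4 := d1.mul d3
  have e : pu (fT γ) u t * conj (fT c (x u) t) +
      fT γ u t * conj (X' • pu (fT c) (x u) t) =
      (((fk γ u t * fv γ u t - fk c (x u) t * (fv c (x u) t * X') : ℝ) : ℂ) * Complex.I) *
        (fT γ u t * conj (fT c (x u) t)) := by
    rw [h.pu_T htT, hc.pu_T ht, Complex.real_smul]
    simp only [map_mul, Complex.conj_ofReal, Complex.conj_I]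
    push_cast
    ring
  have e2 : fT γ u t * conj (fT c (x u) t) =
      (CC γ c u (x u) t : ℂ) + SS γ c u (x u) t * Complex.I := (Complex.re_add_im _).symm
  rw [e, e2] at d4
  have d5 : HasDerivAt (fun r => fT γ r t * conj (fT c (x r) t)) _ u := d4
  constructor
  · have := Complex.reCLM.hasFDerivAt.comp_hasDerivAt u d5
    refine this.congr_deriv ?_
    simp only [Complex.reCLM_apply, Complex.mul_re, Complex.mul_im, Complex.add_re,
      Complex.add_im, Complex.ofReal_re, Complex.ofReal_im, Complex.I_re, Complex.I_im]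
    ring
  · have := Complex.imCLM.hasFDerivAt.comp_hasDerivAt u d5
    refine this.congr_deriv ?_
    simp only [Complex.imCLM_apply, Complex.mul_re, Complex.mul_im, Complex.add_re,
      Complex.add_im, Complex.ofReal_re, Complex.ofReal_im, Complex.I_re, Complex.I_im]
    ring

end graph

end Pool.Agent.helper19.EM
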